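import Pool.Agent.Lib.MP_b83852_lc.System

set_option autoImplicit false

namespace Pool.Agent.Lib.MP_b83852_lc

open Pool.Agent.Lib.helper81 Pool.Agent.Lib.helper81.Name

abbrev HN : Type 1 := HS (P := Cond) GG

/-- abstract data of a name for a totally bounded metric space with support `(k, e)` -/
structure MD (k : ℕ) (e : Set Col) where
  U : Cond → Prop
  In : HN → Cond → Prop
  Cl : ℕ → HN → HN → Cond → Prop
  U_mono : ∀ p q, U p → q ≤ p → U q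
  In_mono : ∀ y p q, In y p → q ≤ p → In y q
  Cl_mono : ∀ n y z p q, Cl n y z p → q ≤ p → Cl n y z q
  In_reg : ∀ y p, (∀ q ≤ p, ∃ r ≤ q, In y r) → In y p
  Cl_reg : ∀ n y z p, (∀ q ≤ p, ∃ r ≤ q, Cl n y z r) → Cl n y z p
  In_inv : ∀ π ∈ HH k e, ∀ y p, In y p → In (π • y) (π • p)
  Cl_inv : ∀ π ∈ HH k e, ∀ n y z p, Cl n y z p → Cl n (π • y) (π • z) (π • p)
  In_congr : ∀ y y' p, In y p → Feq y.1 y'.1 p → In y' p
  Cl_congr : ∀ n y y' z z' p, Cl n y z p → Feq y.1 y'.1 p → Feq z.1 z'.1 p → Cl n y' z' p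
  Cl_symm : ∀ n y z p, Cl n y z p → Cl n z y p
  Cl_trans : ∀ n x y z p, Cl (n + 1) x y p → Cl (n + 1) y z p → Cl n x z p
  arch : ∀ y z p, (∀ n, Cl n y z p) → Feq y.1 z.1 p
  In_U : ∀ y p, In y p → U p
  tb : ∀ p n, U p → ∃ q ≤ p, ∃ (K : ℕ) (col : HN → ℕ → Cond → Prop),
    (∀ y i r s, col y i r → s ≤ r → col y i s) ∧
    (∀ y i r y', col y i r → Feq y.1 y'.1 r → col y' i r) ∧
    (∀ y i r, col y i r → In y r) ∧
    (∀ r ≤ q, ∀ y, In y r → ∃ s ≤ r, ∃ i < K, col y i s) ∧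
    ∀ r ≤ q, ∀ y z i, col y i r → col z i r → Cl n y z r

namespace MD

variable {k : ℕ} {e : Set Col} (md : MD k e)

lemma color {T : Type} [Countable T] (y : T → HN) {q : Cond} (hU : md.U q)
    (hy : ∀ t, md.In (y t) q) (n : ℕ) :
    ∃ q' ≤ q, ∃ (K : ℕ) (c : T → ℕ), (∀ t, c t < K) ∧
      ∀ t t', c t = c t' → md.Cl n (y t) (y t') q' := by
  obtain ⟨q1, h1, K, col, a1, -, -, a2, a3⟩ := md.tb q n hU
  obtain ⟨q2, h2, h3⟩ := sigma_meet sigma_closed (fun t r => ∃ i < K, col (y t) i r) q1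
    (fun t r s ⟨i, hi, h⟩ hs => ⟨i, hi, a1 _ _ _ _ h hs⟩)
    (fun t r hr => a2 r hr _ (md.In_mono _ _ _ (hy t) (hr.trans h1)))
  choose c hc1 hc2 using h3
  exact ⟨q2, h2.trans h1, K, c, hc1, fun t t' h => a3 q2 h2 _ _ (c t) (hc2 t) (h ▸ hc2 t')⟩

lemma step1_aux {k' : ℕ} (hk : k ≤ k') {e' : Set Col} (hee : e ⊆ e') (he' : e'.Finite)
    (hlev : ∀ c ∈ e', c.1 < k') {y : HN} (hy : (HH k' e' : Set GG) ⊆ sym GG y.1) (n : ℕ)
    {q : Cond} (hq : md.In y q) :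
    ∃ a ≤ q, ∀ π ∈ HH k' e, ∀ r ≤ a, r ≤ π • a → md.Cl n y (π • y) r := by
  have he : e.Countable := (he'.subset hee).countable
  have hHk : HH k' e ≤ HH k e := HH_anti hk subset_rfl
  set Z : Set Col := cols q ∪ e' with hZ
  have hZc : Z.Countable := (cols_ctbl q).union he'.countable
  obtain ⟨π, hπ1, hπ2⟩ := exists_seq_of_forall_finset_exists (fun π : GG => π ∈ HH k' e)
    (fun π π' : GG => ∀ c ∈ Z, c ∉ e → ∀ c' ∈ Z, π'.1 c ≠ π.1 c') (by
      intro s _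
      obtain ⟨τ, a1, a2, a3⟩ := exists_move (Z2 := ⋃ π ∈ s, π.1 '' Z) he hZc
        (s.countable_toSet.biUnion fun π _ => hZc.image _)
      refine ⟨τ, mem_HH_of_blk a1 a2, fun π hπ c hc hce c' hc' h => a3 c hc hce ?_⟩
      exact Set.mem_biUnion hπ ⟨c', hc', h.symm⟩)
  obtain ⟨q1, hq1⟩ := exists_lb_seq (fun i => π i • q) (by
    intro i j c ξ h1 h2
    rw [mem_smul] at h1 h2
    have k1 : (π i).1 (((π i)⁻¹).1 c) = (π j).1 (((π j)⁻¹).1 c) := by rw [app_inv, app_inv]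
    have heq : ((π i)⁻¹).1 c = ((π j)⁻¹).1 c := by
      by_cases c1 : ((π i)⁻¹).1 c ∈ e
      · apply (π j).1.injective
        rw [← k1, (hπ1 i).2 _ c1, (hπ1 j).2 _ c1]
      by_cases c2 : ((π j)⁻¹).1 c ∈ e
      · apply (π i).1.injective
        rw [k1, (hπ1 i).2 _ c2, (hπ1 j).2 _ c2]
      rcases lt_trichotomy i j with h | h | h
      · exact absurd k1.symm (hπ2 i j h _ (Or.inl (mem_cols h2)) c2 _ (Or.inl (mem_cols h1)))
      · rw [h]
      · exact absurd k1 (hπ2 j i h _ (Or.inl (mem_cols h1)) c1 _ (Or.inl (mem_cols h2)))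
    simp only [heq] at h1
    exact q.func _ ξ h1 h2)
  have hIn : ∀ i, md.In (π i • y) q1 := fun i =>
    md.In_mono _ _ _ (md.In_inv _ (hHk (hπ1 i)) _ _ hq) (hq1 i)
  obtain ⟨q2, hq2, K, col, hc1, hc2⟩ := md.color (fun i => π i • y) (md.In_U _ _ (hIn 0)) hIn (n + 1)
  obtain ⟨i, j, hij, hcol⟩ : ∃ i j, i < j ∧ col i = col j := by
    obtain ⟨i, j, hne, h⟩ := Finite.exists_ne_map_eq_of_infinite
      (fun i => (⟨col i, hc1 i⟩ : Fin K))
    have h' : col i = col j := congrArg Fin.val h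
    rcases lt_or_gt_of_ne hne with h1 | h1
    · exact ⟨i, j, h1, h'⟩
    · exact ⟨j, i, h1, h'.symm⟩
  set ρ : GG := (π i)⁻¹ * π j with hρ
  have hρH : ρ ∈ HH k' e := (HH k' e).mul_mem ((HH k' e).inv_mem (hπ1 i)) (hπ1 j)
  set a : Cond := (π i)⁻¹ • q2 with ha
  have haq : a ≤ q := (le_smul_iff (π i)).1 (hq2.trans (hq1 i))
  have hcl : md.Cl (n + 1) y (ρ • y) a := by
    have := md.Cl_inv _ (hHk ((HH k' e).inv_mem (hπ1 i))) _ _ _ _ (hc2 i j hcol)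
    rwa [inv_smul_smul, ← mul_smul] at this
  set F : Set Col := ρ.1 '' (e' \ e) with hF
  have hFc : F.Countable := (he'.countable.mono Set.sdiff_subset).image _
  have hFe : ∀ c ∈ F, c ∉ e' := by
    rintro _ ⟨c, hc, rfl⟩ h
    apply hπ2 i j hij c (Or.inr hc.1) hc.2 _ (Or.inr h)
    rw [hρ, mul_app, app_inv]
  have hFlev : ∀ c ∈ F, c.1 < k' := by
    rintro _ ⟨c, hc, rfl⟩
    rw [ρ.level]; exact hlev c hc.1
  have hagree : ∀ θ ψ : GG, θ ∈ HH k' e → ψ ∈ HH k' e → (∀ c ∈ F, θ.1 c = ψ.1 c) →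
      ∀ p, Feq (θ • ρ • y).1 (ψ • ρ • y).1 p := by
    intro θ ψ hθ hψ h p
    rw [← mul_smul, ← mul_smul]
    apply feq_smul_of_sym
    apply hy
    have h1 := (HH k' e).mul_mem ((HH k' e).inv_mem ((HH k' e).mul_mem hψ hρH))
      ((HH k' e).mul_mem hθ hρH)
    refine ⟨h1.1, fun c hc => ?_⟩
    by_cases hce : c ∈ e
    · exact h1.2 c hce
    · rw [mul_app, mul_app, h _ ⟨c, ⟨hc, hce⟩, rfl⟩, ← mul_app ψ ρ, inv_app]
  have hcl0 : md.Cl (n + 1) y (ρ • y) (restrict a (e' ∪ F)) := by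
    refine homog (m := fun p => md.Cl (n + 1) y (ρ • y) p) (fun p q => md.Cl_mono _ _ _ p q)
      (fun p => md.Cl_reg _ _ _ p) k' (he'.countable.union hFc) ?_ hcl
    intro θ hθ p hp
    have hθe : θ ∈ HH k' e := HH_anti le_rfl (hee.trans Set.subset_union_left) hθ
    refine md.Cl_congr _ _ _ _ _ _ (md.Cl_inv θ (hHk hθe) _ _ _ _ hp)
      (hy (HH_anti le_rfl Set.subset_union_left hθ) _) ?_
    have := hagree θ 1 hθe (HH k' e).one_mem (fun c hc => hθ.2 c (Or.inr hc)) (θ • p)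
    rwa [one_smul] at this
  refine ⟨a, haq, fun σ hσ r hr1 hr2 => md.Cl_reg _ _ _ _ fun r' hr' => ?_⟩
  obtain ⟨θ, t1, t2, t3⟩ := exists_move (e := e') (Z1 := F)
    (Z2 := cols r' ∪ σ.1 '' e' ∪ σ.1 '' F) he'.countable hFc
    (((cols_ctbl r').union (he'.countable.image _)).union (hFc.image _))
  have hθ : θ ∈ HH k' e' := mem_HH_of_blk t1 t2
  have hθe : θ ∈ HH k' e := HH_anti le_rfl hee hθ
  obtain ⟨θ', s1, s2, s3⟩ := exists_swap (θ * σ⁻¹).1 (σ.1 '' F) (by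
      rintro _ ⟨c, hc, rfl⟩
      rw [mul_app, inv_app, θ.level, σ.level, hθ.1 c (hFlev c hc), hσ.1 c (hFlev c hc)]
      exact ⟨rfl, rfl⟩) (by
      rintro _ ⟨c, hc, rfl⟩ h
      rw [mul_app, inv_app] at h
      exact t3 c hc (hFe c hc) (Or.inr h))
  set ψ : GG := θ' * σ with hψ
  have hψF : ∀ c ∈ F, ψ.1 c = θ.1 c := by
    intro c hc
    rw [hψ, mul_app, s2 _ ⟨c, hc, rfl⟩, mul_app, inv_app]
  have hψe : ∀ c ∈ e', ψ.1 c = σ.1 c := by
    intro c hc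
    rw [hψ, mul_app]
    apply s3
    · rintro ⟨c', hc', h⟩
      exact hFe c' hc' (σ.1.injective h ▸ hc)
    · rintro ⟨c', hc', h⟩
      apply t3 c' hc' (hFe c' hc')
      refine Or.inl (Or.inr ⟨c, hc, ?_⟩)
      have h2 : (θ * σ⁻¹).1 (σ.1 c') = σ.1 c := by
        rw [h]; simp
      rw [mul_app, inv_app] at h2
      exact h2.symm
  have hψH : ψ ∈ HH k' e := by
    refine ⟨fun c hc => ?_, fun c hc => by rw [hψe c (hee hc), hσ.2 c hc]⟩
    rw [hψ, mul_app, (s1 _).2, hσ.1 c hc]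
    simp
  obtain ⟨r'', u1, u2⟩ := exists_lb r' (θ • restrict a F) (by
    intro c ξ b k1 k2
    obtain ⟨c, rfl⟩ := θ.1.surjective c
    rw [app_mem_smul] at k2
    exact t3 c k2.2 (hFe c k2.2) (Or.inl (Or.inl (mem_cols k1))))
  have v1 : r'' ≤ θ • restrict a (e' ∪ F) := by
    rintro ⟨c, u⟩ ht
    obtain ⟨c, rfl⟩ := θ.1.surjective c
    rw [app_mem_smul] at ht
    rcases ht.2 with h | h
    · rw [t2 c h]
      exact u1 (hr' (hr1 ht.1))
    · exact u2 (app_mem_smul.2 ⟨ht.1, h⟩)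
  have v2 : r'' ≤ ψ • restrict a (e' ∪ F) := by
    rintro ⟨c, u⟩ ht
    obtain ⟨c, rfl⟩ := ψ.1.surjective c
    rw [app_mem_smul] at ht
    rcases ht.2 with h | h
    · rw [hψe c h]
      exact u1 (hr' (hr2 (app_mem_smul.2 ht.1)))
    · rw [hψF c h]
      exact u2 (app_mem_smul.2 ⟨ht.1, h⟩)
  have w1 := md.Cl_mono _ _ _ _ _ (md.Cl_inv θ (hHk hθe) _ _ _ _ hcl0) v1
  have w2 := md.Cl_mono _ _ _ _ _ (md.Cl_inv ψ (hHk hψH) _ _ _ _ hcl0) v2
  have w3 : md.Cl (n + 1) y (θ • ρ • y) r'' :=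
    md.Cl_congr _ _ _ _ _ _ w1 (hy hθ _) (Feq.refl _ _)
  have w4 : md.Cl (n + 1) (σ • y) (θ • ρ • y) r'' := by
    refine md.Cl_congr _ _ _ _ _ _ w2 ?_ (hagree ψ θ hψH hθe hψF _)
    apply feq_smul_of_sym
    apply hy
    exact ⟨((HH k' e).mul_mem ((HH k' e).inv_mem hσ) hψH).1,
      fun c hc => by rw [mul_app, hψe c hc, inv_app]⟩
  exact ⟨r'', u1, md.Cl_trans _ _ _ _ _ w3 (md.Cl_symm _ _ _ _ w4)⟩

lemma step1 (he : e.Finite) {k' : ℕ} (hk : k ≤ k') {e' : Set Col} (hee : e ⊆ e') (he' : e'.Finite)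
    (hlev : ∀ c ∈ e', c.1 < k') {y : HN} (hy : (HH k' e' : Set GG) ⊆ sym GG y.1)
    {q : Cond} (hq : md.In y q) :
    ∃ q' ≤ q, ∃ z : HN, (HH k' e : Set GG) ⊆ sym GG z.1 ∧ Feq y.1 z.1 q' := by
  obtain ⟨a, ha, h⟩ := sigma_meet sigma_closed
    (fun n a => ∀ π ∈ HH k' e, ∀ r ≤ a, r ≤ π • a → md.Cl n y (π • y) r) q
    (fun n a b h hb π hπ r h1 h2 => h π hπ r (h1.trans hb) (h2.trans (smul_mono π hb)))
    (fun n r hr => md.step1_aux hk hee he' hlev hy n (md.In_mono _ _ _ hq hr))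
  obtain ⟨z, h1, h2⟩ := mixing (HH k' e) (HH_mem_F k' he) y a
    (fun π hπ r h1 h2 => md.arch y (π • y) r fun n => h n π hπ r h1 h2)
  exact ⟨a, ha, z, h1, h2⟩

lemma step2 (he : e.Finite) (hlev : ∀ c ∈ e, c.1 < k) {j : ℕ} (hj : k ≤ j) {y : HN}
    (hy : (HH (j + 1) e : Set GG) ⊆ sym GG y.1) {q : Cond} (hq : md.In y q) :
    ∃ q' ≤ q, ∃ z : HN, (HH j e : Set GG) ⊆ sym GG z.1 ∧ Feq y.1 z.1 q' := by
  have hlev' : ∀ c ∈ e, c.1 < j := fun c hc => lt_of_lt_of_le (hlev c hc) hj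
  have hH1 : HH (j + 1) e ≤ HH k e := HH_anti (by omega) subset_rfl
  have hsh : ∀ l, shift j l ∈ HH k e := fun l => HH_anti hj subset_rfl (shift_mem_HH l hlev')
  have h0 : md.In y (restrict q e) :=
    homog (m := fun p => md.In y p) (fun p q => md.In_mono _ p q) (fun p => md.In_reg _ p) (j + 1)
      he.countable (fun θ hθ p hp => md.In_congr _ _ _ (md.In_inv θ (hH1 hθ) _ _ hp) (hy hθ _)) hq
  have h1 : ∀ l, md.In (shift j l • y) q := by
    intro l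
    have := md.In_inv _ (hsh l) _ _ h0
    rw [smul_restrict (hsh l)] at this
    exact md.In_mono _ _ _ this (le_restrict q e)
  obtain ⟨b, hb, h2⟩ := sigma_meet sigma_closed
    (fun n b => ∃ (K : ℕ) (c : Lam → ℕ), (∀ t, c t < K) ∧
      ∀ t t', c t = c t' → md.Cl n (shift j t • y) (shift j t' • y) b) q
    (fun n a b ⟨K, c, h1, h2⟩ hb => ⟨K, c, h1, fun t t' h => md.Cl_mono _ _ _ _ _ (h2 t t' h) hb⟩)
    (fun n r hr => md.color (fun l => shift j l • y) (md.U_mono _ _ (md.In_U _ _ hq) hr)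
      (fun l => md.In_mono _ _ _ (h1 l) hr) n)
  have hres : ∀ n t t', md.Cl n (shift j t • y) (shift j t' • y) b →
      md.Cl n (shift j t • y) (shift j t' • y) (restrict b e) := by
    intro n t t' h
    refine homog (m := fun p => md.Cl n (shift j t • y) (shift j t' • y) p)
      (fun p q => md.Cl_mono _ _ _ p q) (fun p => md.Cl_reg _ _ _ p) (j + 1) he.countable ?_ h
    intro θ hθ p hp
    exact md.Cl_congr _ _ _ _ _ _ (md.Cl_inv θ (hH1 hθ) _ _ _ _ hp)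
      (mem_sym_smul (hy (conj_shift_mem t hlev' hθ)) _)
      (mem_sym_smul (hy (conj_shift_mem t' hlev' hθ)) _)
  have hleft : ∀ n l t t', md.Cl n (shift j t • y) (shift j t' • y) (restrict b e) →
      md.Cl n (shift j (l * t) • y) (shift j (l * t') • y) (restrict b e) := by
    intro n l t t' h
    have := md.Cl_inv _ (hsh l) _ _ _ _ h
    rwa [smul_restrict (hsh l), ← mul_smul, ← mul_smul, ← map_mul, ← map_mul] at this
  have h3 := sl2_map (fun n => {l | md.Cl n (shift j 1 • y) (shift j l • y) (restrict b e)})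
    (fun n g hg => by
      have := hleft n g⁻¹ _ _ hg
      rw [mul_one, inv_mul_cancel] at this
      exact md.Cl_symm _ _ _ _ this)
    (fun n g h hg hh => by
      have := hleft _ g _ _ hh
      rw [mul_one] at this
      exact md.Cl_trans _ _ _ _ _ hg this)
    (fun n => by
      obtain ⟨K, c, a1, a2⟩ := h2 n
      refine ⟨K, c, a1, fun g h hgh => ?_⟩
      have := hleft n g⁻¹ _ _ (hres n g h (a2 g h hgh))
      rwa [inv_mul_cancel] at this)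
  obtain ⟨z, a1, a2⟩ := mixing (HH j e) (HH_mem_F j he) y b (by
    intro π hπ r hr _
    obtain ⟨l, hl⟩ := exists_shift hlev' hπ
    have b1 := md.arch _ _ _ fun n => h3 n l
    rw [map_one, one_smul] at b1
    exact (b1.mono (hr.trans (le_restrict b e))).trans (feq_smul_of_sym (hy hl) r).symm)
  exact ⟨b, hb, z, a1, a2⟩

theorem reduce (he : e.Finite) (hlev : ∀ c ∈ e, c.1 < k) {y : HN} {q : Cond} (hq : md.In y q) :
    ∃ q' ≤ q, ∃ z : HN, (HH k e : Set GG) ⊆ sym GG z.1 ∧ Feq y.1 z.1 q' := by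
  obtain ⟨k', e', h1, h2, h3, h4, h5⟩ := exists_support y.sym_mem k he
  have key : ∀ d, ∀ (y : HN) (q : Cond), (HH (k + d) e : Set GG) ⊆ sym GG y.1 → md.In y q →
      ∃ q' ≤ q, ∃ z : HN, (HH k e : Set GG) ⊆ sym GG z.1 ∧ Feq y.1 z.1 q' := by
    intro d
    induction d with
    | zero => intro y q hy _; exact ⟨q, le_rfl, y, hy, Feq.refl _ _⟩
    | succ d ih =>
      intro y q hy hq
      obtain ⟨q1, a1, z1, a2, a3⟩ := md.step2 he hlev (Nat.le_add_right k d) hy hq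
      obtain ⟨q2, b1, z2, b2, b3⟩ := ih z1 q1 a2
        (md.In_congr _ _ _ (md.In_mono _ _ _ hq a1) a3)
      exact ⟨q2, b1.trans a1, z2, b2, (a3.mono b1).trans b3⟩
  obtain ⟨q1, a1, z1, a2, a3⟩ := md.step1 he h1 h2 h3 h4 h5 hq
  obtain ⟨d, rfl⟩ := Nat.exists_eq_add_of_le h1
  obtain ⟨q2, b1, z2, b2, b3⟩ := key d z1 q1 a2 (md.In_congr _ _ _ (md.In_mono _ _ _ hq a1) a3)
  exact ⟨q2, b1.trans a1, z2, b2, (a3.mono b1).trans b3⟩

/-- a countable dense family of names with the same support, without repetitions -/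
theorem dense_names (he : e.Finite) (hlev : ∀ c ∈ e, c.1 < k) {p : Cond} (hp : md.U p) :
    ∃ q ≤ p, ∃ (I : Set ℕ) (z : ℕ → HN), (∀ i, (HH k e : Set GG) ⊆ sym GG (z i).1) ∧
      (∀ i ∈ I, md.In (z i) q) ∧
      (∀ i ∈ I, ∀ j ∈ I, ∀ r ≤ q, Feq (z i).1 (z j).1 r → i = j) ∧
      ∀ n, ∀ r ≤ q, ∀ y, md.In y r → ∃ s ≤ r, ∃ i ∈ I, md.Cl n y (z i) s := by
  classical
  have h1 : ∀ n, ∀ q ≤ p, ∃ q' ≤ q, ∃ (J : Set ℕ) (z : ℕ → HN),
      (∀ i, (HH k e : Set GG) ⊆ sym GG (z i).1) ∧ (∀ i ∈ J, md.In (z i) q') ∧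
      ∀ r ≤ q', ∀ y, md.In y r → ∃ s ≤ r, ∃ i ∈ J, md.Cl n y (z i) s := by
    intro n q hq
    obtain ⟨q1, a0, K, col, a1, a2, a3, a4, a5⟩ := md.tb q n (md.U_mono _ _ hp hq)
    obtain ⟨q2, b1, b2⟩ := sigma_meet sigma_closed
      (fun (i : ℕ) r => ∃ z : HN, (HH k e : Set GG) ⊆ sym GG z.1 ∧
        (col z i r ∨ ∀ s ≤ r, ∀ y, ¬ col y i s)) q1
      (fun i r s ⟨z, h1, h2⟩ hs => ⟨z, h1, h2.imp (fun h => a1 _ _ _ _ h hs)
        fun h t ht => h t (ht.trans hs)⟩)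
      (fun i r hr => by
        by_cases h : ∃ s ≤ r, ∃ y, col y i s
        · obtain ⟨s, hs, y, hy⟩ := h
          obtain ⟨t, ht, z, c1, c2⟩ := md.reduce he hlev (a3 _ _ _ hy)
          exact ⟨t, ht.trans hs, z, c1, Or.inl (a2 _ _ _ _ (a1 _ _ _ _ hy ht) c2)⟩
        · push Not at h
          exact ⟨r, le_rfl, omegaH GG, fun π _ => mem_sym_omegaH π, Or.inr h⟩)
    choose z c1 c2 using b2
    refine ⟨q2, b1.trans a0, {i | col (z i) i q2}, z, c1, fun i hi => a3 _ _ _ hi, ?_⟩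
    intro r hr y hy
    obtain ⟨s, hs, i, -, hi⟩ := a4 r (hr.trans b1) y hy
    rcases c2 i with h | h
    · exact ⟨s, hs, i, h, a5 s (hs.trans (hr.trans b1)) _ _ i hi (a1 _ _ _ _ h (hs.trans hr))⟩
    · exact absurd hi (h s (hs.trans hr) y)
  obtain ⟨q1, a1, a2⟩ := sigma_meet sigma_closed _ p
    (fun n a b ⟨J, z, h1, h2, h3⟩ hb => ⟨J, z, h1, fun i hi => md.In_mono _ _ _ (h2 i hi) hb,
      fun r hr => h3 r (hr.trans hb)⟩) h1
  choose J z b1 b2 b3 using a2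
  let z' : ℕ → HN := fun m => z m.unpair.1 m.unpair.2
  let J' : Set ℕ := {m | m.unpair.2 ∈ J m.unpair.1}
  obtain ⟨q2, c1, c2⟩ := sigma_meet sigma_closed
    (fun (t : ℕ × ℕ) r => Feq (z' t.1).1 (z' t.2).1 r ∨ ∀ s ≤ r, ¬ Feq (z' t.1).1 (z' t.2).1 s) q1
    (fun t r s h hs => h.imp (fun h => h.mono hs) fun h t ht => h t (ht.trans hs))
    (fun t r _ => by
      by_cases h : ∃ s ≤ r, Feq (z' t.1).1 (z' t.2).1 s
      · obtain ⟨s, hs, h⟩ := h
        exact ⟨s, hs, Or.inl h⟩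
      · push Not at h
        exact ⟨r, le_rfl, Or.inr h⟩)
  refine ⟨q2, c1.trans a1, {m | m ∈ J' ∧ ∀ m' < m, m' ∈ J' → ¬ Feq (z' m').1 (z' m).1 q2}, z',
    fun i => b1 _ _, fun i hi => md.In_mono _ _ _ (b2 _ _ hi.1) c1, ?_, ?_⟩
  · intro i hi j hj r hr h
    have h' : Feq (z' i).1 (z' j).1 q2 := (c2 (i, j)).resolve_right fun h' => h' r hr h
    rcases lt_trichotomy i j with hij | hij | hij
    · exact absurd h' (hj.2 i hij hi.1)
    · exact hij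
    · exact absurd h'.symm (hi.2 j hij hj.1)
  · intro n r hr y hy
    obtain ⟨s, hs, i, hi, h⟩ := b3 n r (hr.trans c1) y hy
    have hex : ∃ m, m ∈ J' ∧ Feq (z' m).1 (z n i).1 q2 :=
      ⟨Nat.pair n i, by simpa [J'] using hi, by simpa [z'] using Feq.refl _ _⟩
    refine ⟨s, hs, Nat.find hex, ⟨(Nat.find_spec hex).1, fun m' hm' h1 h2 =>
      Nat.find_min hex hm' ⟨h1, h2.trans (Nat.find_spec hex).2⟩⟩, ?_⟩
    exact md.Cl_congr _ _ _ _ _ _ h (Feq.refl _ _)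
      ((Nat.find_spec hex).2.mono (hs.trans hr)).symm

end MD

end Pool.Agent.Lib.MP_b83852_lc
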