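import Pool.Agent.Lib.helper81.ZF

set_option autoImplicit false

namespace Pool.Agent.Lib.MP_b83852_lc

open Pool.Agent.Lib.helper81

variable {M : Type} (E : M → M → Prop)

/-- `g(x, y) = z`: the pair of `(x, y)` and `z` belongs to `g`. -/
def Op (g x y z : M) : Prop := ∃ p, OP E p x y ∧ Rel E g p z

/-- The sets `R, add, mul, lt` of the model code the ordered field `K` via `e`, and the field is
Dedekind complete for subsets of `R` in the model. -/
def Reals {K : Type} [Field K] [LinearOrder K] (e : K → M) (R add mul lt : M) : Prop :=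
  Function.Injective e ∧ (∀ x, E x R ↔ ∃ r, e r = x) ∧
    (∀ r s z, Op E add (e r) (e s) z ↔ z = e (r + s)) ∧
    (∀ r s z, Op E mul (e r) (e s) z ↔ z = e (r * s)) ∧
    (∀ r s, Rel E lt (e r) (e s) ↔ r < s) ∧
    ∀ S, Sub E S R → {r | E (e r) S}.Nonempty → BddAbove {r | E (e r) S} →
      ∃ b, IsLUB {r | E (e r) S} b

/-- The set `d` of the model codes the metric `δ` on `X`, and `τ` is the topology it induces. -/
def Metric {K : Type} [Field K] [LinearOrder K] (e : K → M) (δ : M → M → K) (d X τ : M) : Prop :=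
  (∀ x y z, E x X → E y X → (Op E d x y z ↔ z = e (δ x y))) ∧
    (∀ x y, E x X → E y X → (δ x y = 0 ↔ x = y)) ∧
    (∀ x y, E x X → E y X → δ x y = δ y x) ∧
    (∀ x y z, E x X → E y X → E z X → δ x z ≤ δ x y + δ y z) ∧
    ∀ U, E U τ ↔ Sub E U X ∧ ∀ x, E x U → ∃ ε, 0 < ε ∧ ∀ y, E y X → δ x y < ε → E y U

/-- `τ` is the topology on `X` induced by a metric with values in the reals of the model. -/
def Metrizable (X τ : M) : Prop :=
  ∃ (K : Type) (_ : Field K) (_ : LinearOrder K) (_ : IsStrictOrderedRing K) (e : K → M)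
    (δ : M → M → K) (R add mul lt d : M), Reals E e R add mul lt ∧ Metric E e δ d X τ

/-- Every open cover has a finite subcover. -/
def Compact (X τ : M) : Prop :=
  ∀ C, Sub E C τ → (∀ x, E x X → ∃ U, E U C ∧ E x U) →
    ∃ F, Sub E F C ∧ Fint E F ∧ ∀ x, E x X → ∃ U, E U F ∧ E x U

/-- There is a countable dense subset. -/
def Separable (X τ : M) : Prop :=
  ∃ D, Sub E D X ∧ Ctbl E D ∧ ∀ U, E U τ → (∃ x, E x U) → ∃ x, E x U ∧ E x D

/-- Every compact metrizable space is separable. -/
def MCS : Prop := ∀ X τ, Metrizable E X τ → Compact E X τ → Separable E X τ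

/-- The union of a countable family of countable sets is countable. -/
def CUC : Prop :=
  ∀ F u, Ctbl E F → (∀ x, E x F → Ctbl E x) → (∀ z, E z u ↔ ∃ x, E x F ∧ E z x) → Ctbl E u

end Pool.Agent.Lib.MP_b83852_lc
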