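import Pool.Agent.Lib.MP_b83852_lc.Defs
import Pool.Agent.Lib.helper81.Definable

set_option autoImplicit false

namespace Pool.Agent.Lib.MP_b83852_lc

open Pool.Agent.Lib.helper81

/-- first-order form of the ordered field laws -/
def FOF {M : Type} (R : M → Prop) (A Mu : M → M → M → Prop) (L : M → M → Prop) : Prop :=
  ∃ z o, R z ∧ R o ∧ L z o ∧
    (∀ x y, R x → R y → ∃ s, R s ∧ ∀ t, A x y t ↔ t = s) ∧
    (∀ x y, R x → R y → ∃ s, R s ∧ ∀ t, Mu x y t ↔ t = s) ∧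
    (∀ x y w s t u, R x → R y → R w → A x y s → A y w t → A s w u → A x t u) ∧
    (∀ x, R x → A z x x) ∧ (∀ x, R x → ∃ y, R y ∧ A y x z) ∧
    (∀ x y w s t u, R x → R y → R w → Mu x y s → Mu y w t → Mu s w u → Mu x t u) ∧
    (∀ x y s, R x → R y → Mu x y s → Mu y x s) ∧
    (∀ x, R x → Mu o x x) ∧ (∀ x, R x → x ≠ z → ∃ y, R y ∧ Mu x y o) ∧
    (∀ x y w s a b c, R x → R y → R w → A y w s → Mu x y a → Mu x w b → A a b c → Mu x s c) ∧
    (∀ x, R x → ¬ L x x) ∧ (∀ x y w, R x → R y → R w → L x y → L y w → L x w) ∧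
    (∀ x y, R x → R y → ¬ L x y → ¬ L y x → x = y) ∧
    (∀ x y w s t, R x → R y → R w → L x y → A x w s → A y w t → L s t) ∧
    (∀ x y s, R x → R y → L z x → L z y → Mu x y s → L z s)

lemma fof_of_field {M K : Type} [Field K] [LinearOrder K] [IsStrictOrderedRing K] {e : K → M}
    {R : M → Prop} {A Mu : M → M → M → Prop} {L : M → M → Prop} (hinj : Function.Injective e)
    (hR : ∀ x, R x ↔ ∃ r, e r = x) (hA : ∀ r s z, A (e r) (e s) z ↔ z = e (r + s))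
    (hM : ∀ r s z, Mu (e r) (e s) z ↔ z = e (r * s)) (hL : ∀ r s, L (e r) (e s) ↔ r < s) :
    FOF R A Mu L := by
  refine ⟨e 0, e 1, (hR _).2 ⟨_, rfl⟩, (hR _).2 ⟨_, rfl⟩, (hL _ _).2 zero_lt_one, ?_, ?_, ?_, ?_, ?_,
    ?_, ?_, ?_, ?_, ?_, ?_, ?_, ?_, ?_, ?_⟩ <;> simp only [hR]
  · rintro _ _ ⟨x, rfl⟩ ⟨y, rfl⟩
    exact ⟨_, ⟨x + y, rfl⟩, hA x y⟩
  · rintro _ _ ⟨x, rfl⟩ ⟨y, rfl⟩
    exact ⟨_, ⟨x * y, rfl⟩, hM x y⟩
  · rintro _ _ _ s t u ⟨x, rfl⟩ ⟨y, rfl⟩ ⟨w, rfl⟩ h1 h2 h3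
    rw [hA] at h1 h2
    subst h1 h2
    rw [hA] at h3 ⊢
    rw [h3, add_assoc]
  · rintro _ ⟨x, rfl⟩
    rw [hA, zero_add]
  · rintro _ ⟨x, rfl⟩
    exact ⟨_, ⟨-x, rfl⟩, by rw [hA, neg_add_cancel]⟩
  · rintro _ _ _ s t u ⟨x, rfl⟩ ⟨y, rfl⟩ ⟨w, rfl⟩ h1 h2 h3
    rw [hM] at h1 h2
    subst h1 h2
    rw [hM] at h3 ⊢
    rw [h3, mul_assoc]
  · rintro _ _ s ⟨x, rfl⟩ ⟨y, rfl⟩ h1
    rw [hM] at h1 ⊢
    rw [h1, mul_comm]
  · rintro _ ⟨x, rfl⟩
    rw [hM, one_mul]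
  · rintro _ ⟨x, rfl⟩ hx
    have : x ≠ 0 := fun h => hx (by rw [h])
    exact ⟨_, ⟨x⁻¹, rfl⟩, by rw [hM, mul_inv_cancel₀ this]⟩
  · rintro _ _ _ s a b c ⟨x, rfl⟩ ⟨y, rfl⟩ ⟨w, rfl⟩ h1 h2 h3 h4
    rw [hA] at h1
    rw [hM] at h2 h3
    subst h1 h2 h3
    rw [hA] at h4
    rw [hM, h4, mul_add]
  · rintro _ ⟨x, rfl⟩
    rw [hL]; exact lt_irrefl x
  · rintro _ _ _ ⟨x, rfl⟩ ⟨y, rfl⟩ ⟨w, rfl⟩
    simp only [hL]; exact lt_trans
  · rintro _ _ ⟨x, rfl⟩ ⟨y, rfl⟩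
    simp only [hL]
    intro h1 h2
    rw [le_antisymm (not_lt.1 h2) (not_lt.1 h1)]
  · rintro _ _ _ s t ⟨x, rfl⟩ ⟨y, rfl⟩ ⟨w, rfl⟩ h1 h2 h3
    rw [hA] at h2 h3
    subst h2 h3
    rw [hL] at h1 ⊢
    linarith
  · rintro _ _ s ⟨x, rfl⟩ ⟨y, rfl⟩ h1 h2 h3
    rw [hM] at h3
    subst h3
    rw [hL] at h1 h2 ⊢
    exact mul_pos h1 h2

lemma field_of_fof {M : Type} {R : M → Prop} {A Mu : M → M → M → Prop} {L : M → M → Prop}
    (h : FOF R A Mu L) :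
    ∃ (K : Type) (_ : Field K) (_ : LinearOrder K) (_ : IsStrictOrderedRing K) (e : K → M),
      Function.Injective e ∧ (∀ x, R x ↔ ∃ r, e r = x) ∧
      (∀ r s z, A (e r) (e s) z ↔ z = e (r + s)) ∧ (∀ r s z, Mu (e r) (e s) z ↔ z = e (r * s)) ∧
      ∀ r s, L (e r) (e s) ↔ r < s := by
  classical
  obtain ⟨z, o, hz, ho, hzo, hA, hM, a1, a2, a3, m1, m2, m3, m4, dist, l1, l2, l3, l4, l5⟩ := h
  choose! fa fa1 fa2 using hA
  choose! fm fm1 fm2 using hM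
  choose! fn fn1 fn2 using a3
  choose! fi fi1 fi2 using m4
  let K := {x // R x}
  let _ : Add K := ⟨fun x y => ⟨fa x.1 y.1, fa1 _ _ x.2 y.2⟩⟩
  let _ : Mul K := ⟨fun x y => ⟨fm x.1 y.1, fm1 _ _ x.2 y.2⟩⟩
  let _ : Neg K := ⟨fun x => ⟨fn x.1, fn1 _ x.2⟩⟩
  let _ : Zero K := ⟨⟨z, hz⟩⟩
  let _ : One K := ⟨⟨o, ho⟩⟩
  let _ : Inv K := ⟨fun x => if h : x.1 = z then ⟨z, hz⟩ else ⟨fi x.1, fi1 _ x.2 h⟩⟩
  have hA : ∀ (x y : K) t, A x.1 y.1 t ↔ t = (x + y).1 := fun x y => fa2 _ _ x.2 y.2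
  have hM : ∀ (x y : K) t, Mu x.1 y.1 t ↔ t = (x * y).1 := fun x y => fm2 _ _ x.2 y.2
  have hA' : ∀ x y : K, A x.1 y.1 (x + y).1 := fun x y => (hA x y _).2 rfl
  have hM' : ∀ x y : K, Mu x.1 y.1 (x * y).1 := fun x y => (hM x y _).2 rfl
  let fld : Field K := Field.ofMinimalAxioms K
    (fun a b c => Subtype.ext ((hA a (b + c) _).1
      (a1 _ _ _ _ _ _ a.2 b.2 c.2 (hA' a b) (hA' b c) (hA' (a + b) c))))
    (fun a => Subtype.ext ((hA 0 a _).1 (a2 _ a.2)).symm)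
    (fun a => Subtype.ext ((hA (-a) a _).1 (fn2 _ a.2)).symm)
    (fun a b c => Subtype.ext ((hM a (b * c) _).1
      (m1 _ _ _ _ _ _ a.2 b.2 c.2 (hM' a b) (hM' b c) (hM' (a * b) c))))
    (fun a b => Subtype.ext ((hM b a _).1 (m2 _ _ _ a.2 b.2 (hM' a b))))
    (fun a => Subtype.ext ((hM 1 a _).1 (m3 _ a.2)).symm)
    (fun a ha => by
      have h : ¬ a.1 = z := fun h => ha (Subtype.ext h)
      have e : a⁻¹ = ⟨fi a.1, fi1 _ a.2 h⟩ := dif_neg h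
      rw [e]
      exact Subtype.ext ((hM a ⟨fi a.1, fi1 _ a.2 h⟩ _).1 (fi2 _ a.2 h)).symm)
    (dif_pos rfl)
    (fun a b c => Subtype.ext ((hM a (b + c) _).1
      (dist _ _ _ _ _ _ _ a.2 b.2 c.2 (hA' b c) (hM' a b) (hM' a c) (hA' (a * b) (a * c)))).symm)
    ⟨0, 1, fun h => l1 z hz (by
      have : z = o := congrArg Subtype.val h
      rw [← this] at hzo; exact hzo)⟩
  let lt : K → K → Prop := fun x y => L x.1 y.1
  have sto : IsStrictTotalOrder K lt :=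
    { trichotomous := fun a b h1 h2 => Subtype.ext (l3 _ _ a.2 b.2 h1 h2)
      irrefl := fun a => l1 _ a.2
      trans := fun a b c => l2 _ _ _ a.2 b.2 c.2 }
  let lo : LinearOrder K := linearOrderOfSTO lt
  have oam : IsOrderedAddMonoid K :=
    { add_le_add_left := fun a b h c => by
        rcases h with h | h
        · exact Or.inl (by rw [h])
        · exact Or.inr (l4 _ _ _ _ _ a.2 b.2 c.2 h (hA' a c) (hA' b c)) }
  have zo : ZeroLEOneClass K := ⟨Or.inr hzo⟩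
  have sor : IsStrictOrderedRing K := IsStrictOrderedRing.of_mul_pos
    fun a b ha hb => l5 _ _ _ a.2 b.2 ha hb (hM' a b)
  exact ⟨K, fld, lo, sor, Subtype.val, Subtype.val_injective,
    fun x => ⟨fun h => ⟨⟨x, h⟩, rfl⟩, fun ⟨r, hr⟩ => hr ▸ r.2⟩, hA, hM, fun _ _ => Iff.rfl⟩

variable {M : Type} (E : M → M → Prop)

def Data (R add mul lt d X τ : M) : Prop :=
  ∃ (K : Type) (_ : Field K) (_ : LinearOrder K) (_ : IsStrictOrderedRing K) (e : K → M)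
    (δ : M → M → K), Reals E e R add mul lt ∧ Metric E e δ d X τ

def FOData (R add mul lt d X τ : M) : Prop :=
  FOF (fun x => E x R) (Op E add) (Op E mul) (Rel E lt) ∧
  (∀ S, Sub E S R → (∃ x, E x S) → (∃ b, E b R ∧ ∀ x, E x S → ¬ Rel E lt b x) →
    ∃ b, E b R ∧ (∀ x, E x S → ¬ Rel E lt b x) ∧
      ∀ c, E c R → (∀ x, E x S → ¬ Rel E lt c x) → ¬ Rel E lt c b) ∧
  (∀ x y, E x X → E y X → ∃ s, E s R ∧ ∀ t, Op E d x y t ↔ t = s) ∧
  (∀ x y s, E x X → E y X → Op E d x y s → (Op E add s s s ↔ x = y)) ∧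
  (∀ x y s, E x X → E y X → Op E d x y s → Op E d y x s) ∧
  (∀ x y w a b c s, E x X → E y X → E w X → Op E d x w a → Op E d x y b → Op E d y w c →
    Op E add b c s → ¬ Rel E lt s a) ∧
  ∀ U, E U τ ↔ Sub E U X ∧ ∀ x, E x U → ∃ ε, E ε R ∧ (∀ z, E z R → Op E add z z z → Rel E lt z ε) ∧
    ∀ y s, E y X → Op E d x y s → Rel E lt s ε → E y U

lemma data_iff (R add mul lt d X τ : M) :
    Data E R add mul lt d X τ ↔ FOData E R add mul lt d X τ := by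
  have topo : ∀ (K : Type) [Field K] [LinearOrder K] [IsStrictOrderedRing K] (e : K → M)
      (δ : M → M → K), Function.Injective e → (∀ x, E x R ↔ ∃ r, e r = x) →
      (∀ r s z, Op E add (e r) (e s) z ↔ z = e (r + s)) → (∀ r s, Rel E lt (e r) (e s) ↔ r < s) →
      (∀ x y z, E x X → E y X → (Op E d x y z ↔ z = e (δ x y))) →
      ∀ U, (Sub E U X ∧ ∀ x, E x U → ∃ ε, 0 < ε ∧ ∀ y, E y X → δ x y < ε → E y U) ↔
        (Sub E U X ∧ ∀ x, E x U → ∃ ε, E ε R ∧ (∀ z, E z R → Op E add z z z → Rel E lt z ε) ∧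
          ∀ y s, E y X → Op E d x y s → Rel E lt s ε → E y U) := by
    intro K _ _ _ e δ hinj hR hA hL hd U
    refine and_congr_right fun hU => forall_congr' fun x => forall_congr' fun hx => ⟨?_, ?_⟩
    · rintro ⟨ε, h1, h2⟩
      refine ⟨e ε, (hR _).2 ⟨_, rfl⟩, fun z hz h => ?_, fun y s hy h3 h4 => ?_⟩
      · obtain ⟨z, rfl⟩ := (hR _).1 hz
        have := hinj ((hA _ _ _).1 h)
        rw [hL]; linarith
      · rw [hd x y s (hU x hx) hy] at h3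
        subst h3
        exact h2 y hy ((hL _ _).1 h4)
    · rintro ⟨ε, h1, h2, h3⟩
      obtain ⟨ε, rfl⟩ := (hR _).1 h1
      refine ⟨ε, (hL _ _).1 (h2 (e 0) ((hR _).2 ⟨_, rfl⟩) ((hA _ _ _).2 (by rw [add_zero]))),
        fun y hy h => h3 y _ hy ((hd x y _ (hU x hx) hy).2 rfl) ((hL _ _).2 h)⟩
  constructor
  · rintro ⟨K, _, _, _, e, δ, ⟨hinj, hR, hA, hM, hL, hC⟩, hd, h0, hs, ht, hτ⟩
    refine ⟨fof_of_field hinj hR hA hM hL, ?_, ?_, ?_, ?_, ?_, ?_⟩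
    · rintro S hS ⟨x, hx⟩ ⟨b, hb, hb'⟩
      obtain ⟨x, rfl⟩ := (hR _).1 (hS x hx)
      obtain ⟨b, rfl⟩ := (hR _).1 hb
      obtain ⟨c, hc⟩ := hC S hS ⟨x, hx⟩ ⟨b, fun r hr => not_lt.1 fun h => hb' _ hr ((hL _ _).2 h)⟩
      refine ⟨e c, (hR _).2 ⟨_, rfl⟩, fun y hy h => ?_, fun c' hc' h1 h2 => ?_⟩
      · obtain ⟨y, rfl⟩ := (hR _).1 (hS y hy)
        exact absurd ((hL _ _).1 h) (not_lt.2 (hc.1 hy))
      · obtain ⟨c', rfl⟩ := (hR _).1 hc'
        exact absurd ((hL _ _).1 h2)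
          (not_lt.2 (hc.2 fun r hr => not_lt.1 fun h => h1 _ hr ((hL _ _).2 h)))
    · intro x y hx hy
      exact ⟨_, (hR _).2 ⟨δ x y, rfl⟩, fun t => hd x y t hx hy⟩
    · intro x y s hx hy h
      rw [hd x y s hx hy] at h
      subst h
      rw [hA, ← h0 x y hx hy, hinj.eq_iff]
      constructor <;> intro h <;> linarith
    · intro x y s hx hy h
      rw [hd x y s hx hy] at h
      rw [hd y x s hy hx, h, hs x y hx hy]
    · intro x y w a b c s hx hy hw h1 h2 h3 h4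
      rw [hd _ _ _ hx hw] at h1
      rw [hd _ _ _ hx hy] at h2
      rw [hd _ _ _ hy hw] at h3
      subst h1 h2 h3
      rw [hA] at h4
      subst h4
      rw [hL]
      exact not_lt.2 (ht x y w hx hy hw)
    · intro U
      rw [hτ, topo K e δ hinj hR hA hL hd]
  · rintro ⟨hF, hC, hd, h0, hs, ht, hτ⟩
    obtain ⟨K, i1, i2, i3, e, hinj, hR, hA, hM, hL⟩ := field_of_fof hF
    have hd' : ∀ x y, E x X → E y X → ∃ r : K, ∀ t, Op E d x y t ↔ t = e r := by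
      intro x y hx hy
      obtain ⟨s, hs, h⟩ := hd x y hx hy
      obtain ⟨r, rfl⟩ := (hR _).1 hs
      exact ⟨r, h⟩
    choose! δ hδ using hd'
    have hδ' : ∀ x y, E x X → E y X → Op E d x y (e (δ x y)) :=
      fun x y hx hy => (hδ x y hx hy _).2 rfl
    refine ⟨K, i1, i2, i3, e, δ, ⟨hinj, hR, hA, hM, hL, ?_⟩, fun x y z hx hy => hδ x y hx hy z,
      ?_, ?_, ?_, ?_⟩
    · rintro S hS ⟨x, hx⟩ ⟨b, hb⟩
      obtain ⟨c, h1, h2, h3⟩ := hC S hS ⟨_, hx⟩ ⟨e b, (hR _).2 ⟨_, rfl⟩, fun y hy h => by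
        obtain ⟨y, rfl⟩ := (hR _).1 (hS y hy)
        exact absurd ((hL _ _).1 h) (not_lt.2 (hb hy))⟩
      obtain ⟨c, rfl⟩ := (hR _).1 h1
      refine ⟨c, fun r hr => not_lt.1 fun h => h2 _ hr ((hL _ _).2 h), fun c' hc' =>
        not_lt.1 fun h => h3 (e c') ((hR _).2 ⟨_, rfl⟩) (fun y hy h' => ?_) ((hL _ _).2 h)⟩
      obtain ⟨y, rfl⟩ := (hR _).1 (hS y hy)
      exact absurd ((hL _ _).1 h') (not_lt.2 (hc' hy))
    · intro x y hx hy
      rw [← h0 x y _ hx hy (hδ' x y hx hy), hA, hinj.eq_iff]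
      constructor <;> intro h <;> linarith
    · intro x y hx hy
      exact hinj ((hδ y x hy hx _).1 (hs x y _ hx hy (hδ' x y hx hy)))
    · intro x y w hx hy hw
      exact not_lt.1 fun h => ht x y w _ _ _ _ hx hy hw (hδ' x w hx hw) (hδ' x y hx hy)
        (hδ' y w hy hw) ((hA _ _ _).2 rfl) ((hL _ _).2 h)
    · intro U
      rw [hτ, topo K e δ hinj hR hA hL (fun x y z hx hy => hδ x y hx hy z)]

lemma def_op (i j k l : ℕ) : Def (fun _ E v => Op E (v i) (v j) (v k) (v l)) := by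
  unfold Op
  exact Def.ex ((Def.op _ _ _).and (Def.rel _ _ _))

lemma def_data (a b c d e f g : ℕ) :
    Def (fun _ E v => Data E (v a) (v b) (v c) (v d) (v e) (v f) (v g)) := by
  refine Def.congr ?_ fun M E v => data_iff E _ _ _ _ _ _ _
  unfold FOData FOF Ne
  with_reducible repeat' first
    | exact Def.mem _ _ | exact Def.eq _ _ | exact def_op _ _ _ _ | exact Def.rel _ _ _
    | exact Def.sub _ _
    | apply Def.not | apply Def.and | apply Def.iff | apply Def.imp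
    | apply Def.all | apply Def.ex

lemma def_compact (a b : ℕ) : Def (fun _ E v => Compact E (v a) (v b)) := by
  unfold Compact
  with_reducible repeat' first
    | exact Def.mem _ _ | exact Def.sub _ _ | exact Def.fint _
    | apply Def.and | apply Def.imp | apply Def.all | apply Def.ex

lemma def_separable (a b : ℕ) : Def (fun _ E v => Separable E (v a) (v b)) := by
  unfold Separable
  with_reducible repeat' first
    | exact Def.mem _ _ | exact Def.sub _ _ | exact Def.ctbl _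
    | apply Def.and | apply Def.imp | apply Def.all | apply Def.ex

/-- `t` is the real number `2 ^ (-n)` -/
def Eps : ℕ → M → M → M → M → Prop
  | 0, R, _, mul, t => E t R ∧ ∀ x, E x R → Op E mul t x x
  | n + 1, R, add, mul, t => E t R ∧ ∃ s, Eps n R add mul s ∧ Op E add t t s

lemma def_eps (n : ℕ) : ∀ a b c d : ℕ, Def (fun _ E v => Eps E n (v a) (v b) (v c) (v d)) := by
  induction n with
  | zero => exact fun a b c d => (Def.mem _ _).and (Def.all ((Def.mem _ _).imp (def_op _ _ _ _)))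
  | succ n ih => exact fun a b c d => (Def.mem _ _).and (Def.ex ((ih _ _ _ _).and (def_op _ _ _ _)))

lemma eps_iff {K : Type} [Field K] [LinearOrder K] [IsStrictOrderedRing K] {e : K → M}
    {R add mul lt : M} (h : Reals E e R add mul lt) (n : ℕ) :
    ∀ t, Eps E n R add mul t ↔ t = e ((1 / 2) ^ n) := by
  obtain ⟨hinj, hR, hA, hM, -, -⟩ := h
  induction n with
  | zero =>
    intro t
    constructor
    · rintro ⟨h1, h2⟩
      obtain ⟨t, rfl⟩ := (hR _).1 h1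
      have := hinj ((hM _ _ _).1 (h2 (e 1) ((hR _).2 ⟨_, rfl⟩)))
      rw [pow_zero, this, mul_one]
    · rintro rfl
      refine ⟨(hR _).2 ⟨_, rfl⟩, fun x hx => ?_⟩
      obtain ⟨x, rfl⟩ := (hR _).1 hx
      rw [hM, pow_zero, one_mul]
  | succ n ih =>
    intro t
    constructor
    · rintro ⟨h1, s, h2, h3⟩
      obtain ⟨t, rfl⟩ := (hR _).1 h1
      rw [ih] at h2
      subst h2
      have := hinj ((hA _ _ _).1 h3)
      congr 1
      rw [pow_succ, this]; ring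
    · rintro rfl
      refine ⟨(hR _).2 ⟨_, rfl⟩, _, (ih _).2 rfl, (hA _ _ _).2 ?_⟩
      congr 1
      rw [pow_succ]; ring

/-- `d x y < 2 ^ (-n)` -/
def Close (n : ℕ) (R add mul lt d x y : M) : Prop :=
  ∃ t r, Eps E n R add mul t ∧ Op E d x y r ∧ Rel E lt r t

lemma def_close (n a b c d e f g : ℕ) :
    Def (fun _ E v => Close E n (v a) (v b) (v c) (v d) (v e) (v f) (v g)) :=
  Def.ex (Def.ex ((def_eps n _ _ _ _).and ((def_op _ _ _ _).and (Def.rel _ _ _))))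

lemma close_iff {K : Type} [Field K] [LinearOrder K] [IsStrictOrderedRing K] {e : K → M}
    {δ : M → M → K} {R add mul lt d X τ : M} (h : Reals E e R add mul lt)
    (hm : Metric E e δ d X τ) (n : ℕ) {x y : M} (hx : E x X) (hy : E y X) :
    Close E n R add mul lt d x y ↔ δ x y < (1 / 2) ^ n := by
  unfold Close
  simp only [eps_iff E h, hm.1 x y _ hx hy]
  constructor
  · rintro ⟨_, _, rfl, rfl, h1⟩
    exact (h.2.2.2.2.1 _ _).1 h1
  · intro h1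
    exact ⟨_, _, rfl, rfl, (h.2.2.2.2.1 _ _).2 h1⟩

end Pool.Agent.Lib.MP_b83852_lc
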