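import Pool.Agent.Lib.MP_b83852_lc.FO
import Pool.Agent.Lib.MP_b83852_lc.Core

set_option autoImplicit false

namespace Pool.Agent.Lib.MP_b83852_lc

open Pool.Agent.Lib.helper81 Pool.Agent.Lib.helper81.Name

def Hyp : Pred := fun _ E v =>
  Data E (v 0) (v 1) (v 2) (v 3) (v 4) (v 5) (v 6) ∧ Compact E (v 5) (v 6)

lemma def_hyp : Def Hyp := (def_data _ _ _ _ _ _ _).and (def_compact _ _)

def InP : Pred := fun M E v => Hyp M E (fun i => v (i + 1)) ∧ E (v 0) (v 6)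

lemma def_inP : Def InP := (def_hyp.ren _).and (Def.mem _ _)

def ClP (n : ℕ) : Pred := fun M E v => Hyp M E (fun i => v (i + 2)) ∧ E (v 0) (v 7) ∧
  E (v 1) (v 7) ∧ Close E n (v 2) (v 3) (v 4) (v 5) (v 6) (v 0) (v 1)

lemma def_clP (n : ℕ) : Def (ClP n) :=
  (def_hyp.ren _).and ((Def.mem _ _).and ((Def.mem _ _).and (def_close _ _ _ _ _ _ _ _)))

def ColP : Pred := fun M E v => Hyp M E (fun i => v (i + 4)) ∧ E (v 0) (v 9) ∧
  ∃ U, E U (v 2) ∧ E (v 0) U ∧ Rel E (v 3) U (v 1)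

lemma def_colP : Def ColP :=
  (def_hyp.ren _).and ((Def.mem _ _).and
    (Def.ex ((Def.mem _ _).and ((Def.mem _ _).and (Def.rel _ _ _)))))

def NetP (n : ℕ) : Pred := fun _ E v => Inj E (v 1) (v 0) (v 2) ∧
  (∀ x, E x (v 8) → ∃ U, E U (v 0) ∧ E x U) ∧
  ∀ U x y, E U (v 0) → E x U → E y U → Close E n (v 3) (v 4) (v 5) (v 6) (v 7) x y

lemma def_netP (n : ℕ) : Def (NetP n) := by
  unfold NetP
  with_reducible repeat' first
    | exact Def.mem _ _ | exact Def.inj _ _ _ | exact def_close _ _ _ _ _ _ _ _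
    | apply Def.and | apply Def.imp | apply Def.all | apply Def.ex

lemma arch_names {w : ℕ → HN} {S : Set GG} (hS : S ∈ (SymSys.F : Filter GG))
    (hw : ∀ π ∈ S, ∀ i, π ∈ sym GG (w i).1) :
    ∃ C : Set HN, C.Countable ∧ ∀ gm : GM (P := Cond) GG, (∀ i, w i ∈ gm.S) → C ⊆ gm.S →
      ∀ (K : Type) [Field K] [LinearOrder K] [IsStrictOrderedRing K] (e : K → gm.M),
        Reals gm.E e (gm.val (w 0)) (gm.val (w 1)) (gm.val (w 2)) (gm.val (w 3)) →
        ∀ ε : K, 0 < ε → ∃ n : ℕ, (1 / 2) ^ n < ε := by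
  choose z hz1 hz2 using fun n => defname (def_eps n 1 2 3 0) w S hS hw
  have hT : sym GG (setN fun n => (z n).1) ∈ (SymSys.F : Filter GG) :=
    Filter.mem_of_superset hS fun π hπ => mem_sym_setN' fun n => hz1 n hπ
  refine ⟨insert (setH z hT) (Set.range z), (Set.countable_range z).insert _, ?_⟩
  intro gm h1 h2 K _ _ _ e hR ε hε
  have hzS : ∀ n, z n ∈ gm.S := fun n => h2 (Or.inr ⟨n, rfl⟩)
  have hv : ∀ n, gm.val (z n) = e ((1 / 2) ^ n) := by
    intro n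
    exact (eps_iff gm.E hR n _).1 (hz2 n gm h1 (hzS n)
      ⟨_, (eps_iff gm.E hR n _).2 rfl, fun y hy => (eps_iff gm.E hR n _).1 hy⟩)
  have hd : Def (fun _ E v => ∀ t, E t (v 1) → ¬ Rel E (v 2) t (v 0)) :=
    Def.all ((Def.mem _ _).imp (Def.rel _ _ _).not)
  obtain ⟨L, hL⟩ := gm.isZF.sepDef hd (cons (gm.val (setH z hT)) fun _ => gm.val (w 3))
    (gm.val (w 0))
  have hL' : ∀ r : K, gm.E (e r) L ↔ ∀ n : ℕ, r ≤ (1 / 2) ^ n := by
    intro r
    rw [hL]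
    constructor
    · rintro ⟨-, h⟩ n
      have := h _ ((gm.mem_setH_iff (h2 (Or.inl rfl)) hzS _).2 ⟨n, rfl⟩)
      rw [hv] at this
      exact not_lt.1 fun h' => this ((hR.2.2.2.2.1 _ _).2 h')
    · intro h
      refine ⟨(hR.2.1 _).2 ⟨r, rfl⟩, fun t ht h' => ?_⟩
      obtain ⟨n, rfl⟩ := (gm.mem_setH_iff (h2 (Or.inl rfl)) hzS _).1 ht
      rw [hv] at h'
      exact absurd ((hR.2.2.2.2.1 _ _).1 h') (not_lt.2 (h n))
  by_contra hcon
  push Not at hcon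
  obtain ⟨b, hb⟩ := hR.2.2.2.2.2 L (fun x hx => ((hL x).1 hx).1) ⟨ε, (hL' ε).2 hcon⟩
    ⟨1, fun r hr => by simpa using (hL' r).1 hr 0⟩
  have h3 : ε ≤ b := hb.1 ((hL' ε).2 hcon)
  have h4 : ∀ n : ℕ, b ≤ (1 / 2) ^ n := fun n => hb.2 fun r hr => (hL' r).1 hr n
  have h5 : 2 * b ≤ b := hb.1 ((hL' _).2 fun n => by
    have := h4 (n + 1)
    rw [pow_succ] at this
    linarith)
  linarith

lemma exists_net (gm : GM (P := Cond) GG) (v : ℕ → gm.M) (h : Hyp gm.M gm.E v) (n : ℕ) :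
    ∃ (F f : gm.M) (K : ℕ), NetP n gm.M gm.E (cons F (cons f (cons (gm.nat K) v))) := by
  obtain ⟨⟨K, _, _, _, e, δ, hR, hm⟩, hc⟩ := h
  have hd1 : Def (fun _ E v => ∀ x y, E x (v 0) → E y (v 0) →
      Close E n (v 1) (v 2) (v 3) (v 4) (v 5) x y) :=
    Def.all (Def.all ((Def.mem _ _).imp ((Def.mem _ _).imp (def_close _ _ _ _ _ _ _ _))))
  obtain ⟨C, hC⟩ := gm.isZF.sepDef hd1 v (v 6)
  obtain ⟨F, hF1, ⟨ω, k, f, h1, h2, h3⟩, hF3⟩ := hc C (fun U hU => ((hC U).1 hU).1) (by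
    intro x hx
    obtain ⟨B, hB⟩ := gm.isZF.sepDef (def_close (n + 1) 2 3 4 5 6 1 0) (cons x v) (v 5)
    have hB' : ∀ y, gm.E y B ↔ gm.E y (v 5) ∧ δ x y < (1 / 2) ^ (n + 1) := fun y =>
      (hB y).trans (and_congr_right fun hy => close_iff gm.E hR hm (n + 1) hx hy)
    refine ⟨B, (hC B).2 ⟨(hm.2.2.2.2 B).2 ⟨fun y hy => ((hB' y).1 hy).1, fun y hy => ?_⟩, ?_⟩,
      (hB' x).2 ⟨hx, ?_⟩⟩
    · obtain ⟨h1, h2⟩ := (hB' y).1 hy
      refine ⟨(1 / 2) ^ (n + 1) - δ x y, by linarith, fun u hu h3 => (hB' u).2 ⟨hu, ?_⟩⟩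
      have := hm.2.2.2.1 x y u hx h1 hu
      linarith
    · intro y u hy hu
      obtain ⟨h1, h2⟩ := (hB' y).1 hy
      obtain ⟨h3, h4⟩ := (hB' u).1 hu
      refine (close_iff gm.E hR hm n h1 h3).2 ?_
      have a1 := hm.2.2.2.1 y x u h1 hx h3
      have a2 := hm.2.2.1 y x h1 hx
      rw [pow_succ] at h2 h4
      linarith
    · rw [(hm.2.1 x x hx hx).2 rfl]
      positivity)
  rw [gm.omega_eq h1] at h2
  obtain ⟨k, rfl⟩ := (gm.mem_omega _).1 h2
  exact ⟨F, f, k, h3, hF3, fun U x y hU hx hy => ((hC U).1 (hF1 U hU)).2 x y hx hy⟩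

lemma feq_cons2 {y y' z z' : HN} {w : ℕ → HN} {p : Cond} (h1 : Feq y.1 y'.1 p)
    (h2 : Feq z.1 z'.1 p) : ∀ i, Feq (cons y (cons z w) i).1 (cons y' (cons z' w) i).1 p := by
  intro i
  rcases i with _ | _ | i
  · exact h1
  · exact h2
  · exact Feq.refl _ _

lemma feq_cons1 {y y' : HN} {w : ℕ → HN} {p : Cond} (h1 : Feq y.1 y'.1 p) :
    ∀ i, Feq (cons y w i).1 (cons y' w i).1 p := by
  intro i
  rcases i with _ | i
  · exact h1
  · exact Feq.refl _ _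

/-- the abstract data attached to names of a compact metric space -/
def mdOf {k : ℕ} {e : Set Col} (he : e.Finite) (w : ℕ → HN)
    (hw : ∀ π ∈ (HH k e : Set GG), ∀ i, π ∈ sym GG (w i).1) : MD k e where
  U p := Fc Hyp w p
  In y p := Fc InP (cons y w) p
  Cl n y z p := Fc (ClP n) (cons y (cons z w)) p
  U_mono _ _ h hq := h.mono hq
  In_mono _ _ _ h hq := h.mono hq
  Cl_mono _ _ _ _ _ h hq := h.mono hq
  In_reg _ _ h := Fc.reg def_inP h
  Cl_reg n _ _ _ h := Fc.reg (def_clP n) h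
  In_inv π hπ y _ h := (Fc.smul_cons def_inP (hw π hπ) y).1 h
  Cl_inv π hπ n y z _ h := (Fc.smul_cons2 (def_clP n) (hw π hπ) y z).1 h
  In_congr _ _ _ h e := Fc.congr def_inP (feq_cons1 e) h
  Cl_congr n _ _ _ _ _ h e1 e2 := Fc.congr (def_clP n) (feq_cons2 e1 e2) h
  Cl_symm n y z p h := by
    intro gm h1 h2
    obtain ⟨a1, a2, a3, a4⟩ := h gm h1 (forall_cons (h2 1) (forall_cons (h2 0) fun i => h2 (i + 2)))
    refine ⟨a1, a3, a2, ?_⟩
    obtain ⟨⟨K, _, _, _, e, δ, hR, hm⟩, -⟩ := a1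
    refine (close_iff gm.E hR hm n a3 a2).2 ?_
    rw [hm.2.2.1 _ _ a3 a2]
    exact (close_iff gm.E hR hm n a2 a3).1 a4
  Cl_trans n x y z p h h' := by
    refine Fc.of_extra (def_clP n) {y} (Set.countable_singleton y) ?_
    intro gm h1 h2 h3
    obtain ⟨a1, a2, a3, a4⟩ := h gm h1
      (forall_cons (h2 0) (forall_cons (h3 rfl) fun i => h2 (i + 2)))
    obtain ⟨-, -, b3, b4⟩ := h' gm h1
      (forall_cons (h3 rfl) (forall_cons (h2 1) fun i => h2 (i + 2)))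
    refine ⟨a1, a2, b3, ?_⟩
    obtain ⟨⟨K, _, _, _, e, δ, hR, hm⟩, -⟩ := a1
    refine (close_iff gm.E hR hm n a2 b3).2 ?_
    have c1 := (close_iff gm.E hR hm (n + 1) a2 a3).1 a4
    have c2 := (close_iff gm.E hR hm (n + 1) a3 b3).1 b4
    have c3 := hm.2.2.2.1 _ _ _ a2 a3 b3
    rw [pow_succ] at c1 c2
    exact lt_of_le_of_lt c3 (by linarith)
  arch y z p h := by
    obtain ⟨C, hC, hA⟩ := arch_names (HH_mem_F k he) hw
    refine feq_of_gm (Set.range w ∪ C) ((Set.countable_range w).union hC) ?_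
    intro gm h1 h2 h3 h4
    have hwS : ∀ i, w i ∈ gm.S := fun i => h4 (Or.inl ⟨i, rfl⟩)
    have h5 := fun n => h n gm h1 (forall_cons h2 (forall_cons h3 hwS))
    obtain ⟨⟨⟨K, _, _, _, e, δ, hR, hm⟩, -⟩, a2, a3, -⟩ := h5 0
    refine (hm.2.1 _ _ a2 a3).1 ?_
    have c1 := hm.2.2.2.1 _ _ _ a2 a3 a2
    rw [(hm.2.1 _ _ a2 a2).2 rfl, hm.2.2.1 _ _ a3 a2] at c1
    by_contra hne
    obtain ⟨n, hn⟩ := hA gm hwS (fun x hx => h4 (Or.inr hx)) K e hR _
      (lt_of_le_of_ne (by linarith) (Ne.symm hne))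
    exact absurd ((close_iff gm.E hR hm n a2 a3).1 (h5 n).2.2.2) (not_lt.2 hn.le)
  In_U y p h := by
    refine Fc.of_extra def_hyp {y} (Set.countable_singleton y) ?_
    intro gm h1 h2 h3
    exact (h gm h1 (forall_cons (h3 rfl) h2)).1
  tb p n h := by
    obtain ⟨gm, h1, h2, -⟩ := exists_gm' p w ∅ Set.countable_empty
    obtain ⟨F, f, K, hN⟩ := exists_net gm _ (h gm h1 h2) n
    obtain ⟨F, hF, rfl⟩ := gm.surj F
    obtain ⟨f, hf, rfl⟩ := gm.surj f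
    obtain ⟨q, -, hq, hN'⟩ := gm.truthDef_le (def_netP n)
      (w := cons F (cons f (cons (natH GG K) w)))
      (forall_cons hF (forall_cons hf (forall_cons (gm.nat_mem K) h2))) hN h1
    refine ⟨q, hq, K, fun y i r => Fc ColP (cons y (cons (natH GG i) (cons F (cons f w)))) r,
      fun _ _ _ _ h hs => h.mono hs, fun _ _ _ _ h e => Fc.congr def_colP (feq_cons1 e) h,
      ?_, ?_, ?_⟩
    · intro y i r hc
      refine Fc.of_extra def_inP {F, f} (Set.to_countable _) ?_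
      intro g a1 a2 a3
      obtain ⟨b1, b2, -⟩ := hc g a1 (forall_cons (a2 0) (forall_cons (g.nat_mem i)
        (forall_cons (a3 (by simp)) (forall_cons (a3 (by simp)) fun i => a2 (i + 1)))))
      exact ⟨b1, b2⟩
    · intro r hr y hy
      obtain ⟨g, a1, a2, a3⟩ := exists_gm' r (cons y w) {F, f} (Set.to_countable _)
      have a4 : F ∈ g.S := a3 (by simp)
      have a5 : f ∈ g.S := a3 (by simp)
      obtain ⟨b1, b2⟩ := hy g a1 a2
      obtain ⟨c1, c2, -⟩ := hN'.mono hr g a1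
        (forall_cons a4 (forall_cons a5 (forall_cons (g.nat_mem K) fun i => a2 (i + 1))))
      obtain ⟨U, d1, d2⟩ := c2 _ b2
      obtain ⟨j, ⟨t, d3, d4⟩, -⟩ := c1.2.1 U d1
      obtain ⟨U', j', -, d5, d6⟩ := c1.1 t d3
      obtain ⟨i, hi, d7⟩ := (g.mem_nat K _).1 d5
      have d8 : j = g.nat i := by rw [d7]; exact (d4.inj g.isZF.pair d6).2
      obtain ⟨s, -, hs, d9⟩ := g.truthDef_le def_colP
        (w := cons y (cons (natH GG i) (cons F (cons f w))))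
        (forall_cons (a2 0) (forall_cons (g.nat_mem i)
          (forall_cons a4 (forall_cons a5 fun i => a2 (i + 1)))))
        ⟨b1, b2, U, d1, d2, t, d3, by subst d8; exact d4⟩ a1
      exact ⟨s, hs, i, hi, d9⟩
    · intro r hr y z i hy hz
      refine Fc.of_extra (def_clP n) {F, f} (Set.to_countable _) ?_
      intro g a1 a2 a3
      have a4 : F ∈ g.S := a3 (by simp)
      have a5 : f ∈ g.S := a3 (by simp)
      obtain ⟨b1, b2, U, b3, b4, b5⟩ := hy g a1 (forall_cons (a2 0) (forall_cons (g.nat_mem i)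
        (forall_cons a4 (forall_cons a5 fun i => a2 (i + 2)))))
      obtain ⟨-, c2, U', c3, c4, c5⟩ := hz g a1 (forall_cons (a2 1) (forall_cons (g.nat_mem i)
        (forall_cons a4 (forall_cons a5 fun i => a2 (i + 2)))))
      obtain ⟨d1, -, d3⟩ := hN'.mono hr g a1
        (forall_cons a4 (forall_cons a5 (forall_cons (g.nat_mem K) fun i => a2 (i + 2))))
      have : U = U' := d1.2.2 _ _ _ b5 c5
      subst this
      exact ⟨b1, b2, c2, d3 U _ _ b3 b4 c4⟩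

theorem forces_sep {k : ℕ} {e : Set Col} (he : e.Finite) (hlev : ∀ c ∈ e, c.1 < k) (w : ℕ → HN)
    (hw : ∀ π ∈ (HH k e : Set GG), ∀ i, π ∈ sym GG (w i).1) {p : Cond} (hp : Fc Hyp w p) :
    Fc (fun _ E v => Separable E (v 5) (v 6)) w p := by
  refine Fc.reg (def_separable 5 6) fun q hq => ?_
  obtain ⟨q', hq', I, z, a1, a2, a3, a4⟩ := (mdOf he w hw).dense_names he hlev (hp.mono hq)
  have hU : Fc Hyp w q' := hp.mono (hq'.trans hq)
  refine ⟨q', hq', ?_⟩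
  have hD : sym GG (setN fun i : I => (z i).1) ∈ (SymSys.F : Filter GG) :=
    Filter.mem_of_superset (HH_mem_F k he) fun π hπ => mem_sym_setN' fun i => a1 i hπ
  have hf : sym GG (setN fun i : I => (opH (z i) (natH GG i)).1) ∈ (SymSys.F : Filter GG) :=
    Filter.mem_of_superset (HH_mem_F k he) fun π hπ => mem_sym_setN' fun i =>
      mem_sym_opH (a1 i hπ) (mem_sym_natN π _)
  set D : HN := setH (fun i : I => z i) hD with hDdef
  have hdense : ∀ n y, Fc (fun _ E v => E (v 0) (v 7) → ∃ u, E u (v 1) ∧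
      Close E n (v 2) (v 3) (v 4) (v 5) (v 6) (v 0) u) (cons y (cons D w)) q' := by
    intro n y
    have hd : Def (fun _ E v => E (v 0) (v 7) → ∃ u, E u (v 1) ∧
        Close E n (v 2) (v 3) (v 4) (v 5) (v 6) (v 0) u) :=
      (Def.mem _ _).imp (Def.ex ((Def.mem _ _).and (def_close _ _ _ _ _ _ _ _)))
    refine Fc.reg hd fun r hr => ?_
    by_cases h : ∃ s ≤ r, Fc InP (cons y w) s
    · obtain ⟨s, hs, h⟩ := h
      obtain ⟨t, ht, i, hi, h'⟩ := a4 n s (hs.trans hr) y h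
      refine ⟨t, ht.trans hs, Fc.of_extra hd {z i} (Set.countable_singleton _) ?_⟩
      intro g b1 b2 b3 _
      exact ⟨g.val (z i), g.mem_setH (A := fun i : I => z i) (h := hD) (b2 1) (i := ⟨i, hi⟩) (b3 rfl),
        (h' g b1 (forall_cons (b2 0) (forall_cons (b3 rfl) fun i => b2 (i + 2)))).2.2.2⟩
    · refine ⟨r, le_rfl, fun g b1 b2 b3 => absurd ?_ h⟩
      obtain ⟨s, -, hs, h'⟩ := g.truthDef_le def_inP (w := cons y w)
        (forall_cons (b2 0) fun i => b2 (i + 2))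
        ⟨hU.mono hr g b1 fun i => b2 (i + 2), b3⟩ b1
      exact ⟨s, hs, h'⟩
  obtain ⟨C, hC, hA⟩ := arch_names (HH_mem_F k he) hw
  refine Fc.of_extra (def_separable 5 6)
    (C ∪ Set.range z ∪ Set.range (fun i => opH (z i) (natH GG i)) ∪
      {D, setH (fun i : I => opH (z i) (natH GG i)) hf})
    (((hC.union (Set.countable_range _)).union (Set.countable_range _)).union (Set.to_countable _)) ?_
  intro g b1 b2 b3
  have c1 : ∀ i, z i ∈ g.S := fun i => b3 (Or.inl (Or.inl (Or.inr ⟨i, rfl⟩)))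
  have c2 : ∀ i, opH (z i) (natH GG i) ∈ g.S := fun i => b3 (Or.inl (Or.inr ⟨i, rfl⟩))
  have c3 : D ∈ g.S := b3 (Or.inr (Or.inl rfl))
  have c4 : setH (fun i : I => opH (z i) (natH GG i)) hf ∈ g.S := b3 (Or.inr (Or.inr rfl))
  have c5 := g.mem_setH_iff c3 (fun i => c1 i)
  obtain ⟨⟨K, _, _, _, ee, δ, hR, hm⟩, -⟩ := hU g b1 b2
  have c6 : Sub g.E (g.val D) (g.val (w 5)) := by
    intro x hx
    obtain ⟨i, rfl⟩ := (c5 x).1 hx
    exact (a2 i i.2 g b1 (forall_cons (c1 i) b2)).2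
  refine ⟨g.val D, c6, ?_, ?_⟩
  · refine g.ctbl_of_enum (a := fun i : I => z i) (fun i => i.1) c4 (fun i => c1 i)
      (fun i => c2 i) Subtype.val_injective ?_ c5
    intro i j hij
    obtain ⟨r, -, hr, h⟩ := g.eq_le (c1 i) (c1 j) hij b1
    exact Subtype.ext (a3 i i.2 j j.2 r hr h)
  · rintro U hU ⟨x, hx⟩
    obtain ⟨d1, d2⟩ := (hm.2.2.2.2 U).1 hU
    obtain ⟨ε, hε, d3⟩ := d2 x hx
    obtain ⟨n, hn⟩ := hA g b2 (fun x hx => b3 (Or.inl (Or.inl (Or.inl hx)))) K ee hR ε hε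
    obtain ⟨y, hy, rfl⟩ := g.surj x
    obtain ⟨u, d4, d5⟩ := hdense n y g b1 (forall_cons hy (forall_cons c3 b2)) (d1 _ hx)
    exact ⟨u, d3 u (c6 u d4)
      (((close_iff g.E hR hm n (d1 _ hx) (c6 u d4)).1 d5).trans hn), d4⟩

theorem gm_mcs (gm : GM (P := Cond) GG) : MCS gm.E := by
  rintro X τ ⟨K, i1, i2, i3, e, δ, R, add, mul, lt, d, hR, hm⟩ hc
  obtain ⟨X, hX, rfl⟩ := gm.surj X
  obtain ⟨τ, hτ, rfl⟩ := gm.surj τ
  obtain ⟨R, hR', rfl⟩ := gm.surj R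
  obtain ⟨add, hadd, rfl⟩ := gm.surj add
  obtain ⟨mul, hmul, rfl⟩ := gm.surj mul
  obtain ⟨lt, hlt, rfl⟩ := gm.surj lt
  obtain ⟨d, hd, rfl⟩ := gm.surj d
  let w : ℕ → HN := cons R (cons add (cons mul (cons lt (cons d (cons X fun _ => τ)))))
  have hwS : ∀ i, w i ∈ gm.S := forall_cons hR' (forall_cons hadd (forall_cons hmul
    (forall_cons hlt (forall_cons hd (forall_cons hX fun _ => hτ)))))
  obtain ⟨k, e', -, -, a1, a2, a3⟩ := exists_support (Filter.inter_mem R.sym_mem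
    (Filter.inter_mem add.sym_mem (Filter.inter_mem mul.sym_mem (Filter.inter_mem lt.sym_mem
      (Filter.inter_mem d.sym_mem (Filter.inter_mem X.sym_mem τ.sym_mem)))))) 0 Set.finite_empty
  have hw : ∀ π ∈ (HH k e' : Set GG), ∀ i, π ∈ sym GG (w i).1 := by
    intro π hπ
    obtain ⟨b1, b2, b3, b4, b5, b6, b7⟩ := a3 hπ
    intro i
    rcases i with _ | _ | _ | _ | _ | _ | i
    exacts [b1, b2, b3, b4, b5, b6, b7]
  obtain ⟨p, hp, h⟩ := gm.truthDef def_hyp hwS ⟨⟨K, i1, i2, i3, e, δ, hR, hm⟩, hc⟩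
  exact forces_sep a1 a2 w hw h gm hp hwS

end Pool.Agent.Lib.MP_b83852_lc
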