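import Pool.Agent.Lib.MP_b83852_lc.MCS

set_option autoImplicit false

namespace Pool.Agent.Lib.MP_b83852_lc

open Pool.Agent.Lib.helper81 Pool.Agent.Lib.helper81.Name

def chk (ξ : Om) : HN :=
  setH (fun n : ξ => natH GG n) (Filter.univ_mem' fun π => mem_sym_setN' fun n => mem_sym_natN π n)

lemma smul_chk (π : GG) (ξ : Om) : π • (chk ξ).1 = (chk ξ).1 := by
  show π • setN _ = setN _
  rw [smul_setN]
  congr 1
  funext n
  exact smul_natN π n

lemma chk_inj {ξ ξ' : Om} {p : Cond} (h : Feq (chk ξ).1 (chk ξ').1 p) : ξ = ξ' := by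
  obtain ⟨g, h1, h2⟩ := exists_gm (G := GG) p {chk ξ, chk ξ'} (Set.to_countable _)
  have a1 : chk ξ ∈ g.S := h2 (by simp)
  have a2 : chk ξ' ∈ g.S := h2 (by simp)
  have a3 := (g.eq_iff a1 a2).2 ⟨p, h1, h⟩
  have key : ∀ (ζ : Om), chk ζ ∈ g.S → ∀ n, g.E (g.nat n) (g.val (chk ζ)) ↔ n ∈ ζ := by
    intro ζ hζ n
    refine (g.mem_setH_iff hζ (fun i => g.nat_mem i) _).trans ⟨?_, fun hn => ⟨⟨n, hn⟩, rfl⟩⟩
    rintro ⟨⟨m, hm⟩, h⟩
    have : m = n := g.nat_inj h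
    exact this ▸ hm
  ext n
  rw [← key ξ a1, ← key ξ' a2, a3]

def xN (c : Col) : Name Cond :=
  Name.mk Om (fun ξ => (chk ξ).1) (fun ξ => ⟨{p | (c, ξ, true) ∈ p.s}, fun _ _ h hp => h hp⟩)

lemma smul_xN (π : GG) (c : Col) : π • xN c = xN (π.1 c) := by
  unfold xN
  rw [smul_mk]
  congr 1
  funext ξ
  exact smul_chk π ξ

def xH (c : Col) : HN :=
  ⟨xN c, Filter.mem_of_superset (HH_mem_F 0 (Set.finite_singleton c)) fun π hπ p => by
    show Feq (π • xN c) (xN c) p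
    rw [smul_xN, hπ.2 c rfl]; exact Feq.refl _ _, fun ξ => (chk ξ).2⟩

lemma xN_inj {c c' : Col} {p : Cond} (h : Feq (xN c) (xN c') p) : c = c' := by
  by_contra hne
  obtain ⟨ξ, hξ⟩ := exists_notMem (W := (fun t : Col × Om × Bool => t.2.1) '' p.s) (p.ctbl.image _)
  obtain ⟨r, h1, h2⟩ := exists_lb p ⟨{(c, ξ, true), (c', ξ, false)}, Set.to_countable _, by
      intro d ζ k1 k2
      simp only [Set.mem_insert_iff, Set.mem_singleton_iff, Prod.mk.injEq, Bool.true_eq_false,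
        Bool.false_eq_true, and_false, or_false, false_or, and_true] at k1 k2
      exact hne (k1.1.symm.trans k2.1)⟩ (by
    intro d ζ b k1 k2
    simp only [Set.mem_insert_iff, Set.mem_singleton_iff, Prod.mk.injEq] at k2
    apply hξ
    refine ⟨_, k1, ?_⟩
    rcases k2 with k2 | k2 <;> exact k2.2.1)
  obtain ⟨s, hs, ξ', k1, k2⟩ := h.1 ξ r h1 (h2 (Or.inl rfl))
  have := chk_inj k2
  subst this
  exact s.func c' ξ k1 (hs (h2 (Or.inr rfl)))

lemma feq_setN {ι κ : Type} {A : ι → Name Cond} {B : κ → Name Cond} {p : Cond}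
    (h1 : ∀ i, ∃ j, A i = B j) (h2 : ∀ j, ∃ i, A i = B j) : Feq (setN A) (setN B) p := by
  refine ⟨fun i q _ _ => ?_, fun j q _ _ => ?_⟩
  · obtain ⟨j, hj⟩ := h1 i
    exact ⟨q, le_rfl, j, trivial, hj ▸ Feq.refl _ _⟩
  · obtain ⟨i, hi⟩ := h2 j
    exact ⟨q, le_rfl, i, trivial, hi ▸ Feq.refl _ _⟩

def aN (n : ℕ) (i : Lam) : Name Cond := setN fun ξ : Om => xN (n, i, ξ)

lemma smul_aN {π : GG} {σ : ℕ → Lam} (h : Blk π.1 σ) (n : ℕ) (i : Lam) (p : Cond) :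
    Feq (π • aN n i) (aN n (σ n * i)) p := by
  unfold aN
  rw [smul_setN]
  simp only [smul_xN]
  refine feq_setN (fun ξ => ⟨(π.1 (n, i, ξ)).2.2, ?_⟩) (fun ξ => ⟨((π⁻¹).1 (n, σ n * i, ξ)).2.2, ?_⟩)
  · congr 1
    exact Prod.ext (h _).1 (Prod.ext (h _).2 rfl)
  · congr 1
    have : ((n, i, ((π⁻¹).1 (n, σ n * i, ξ)).2.2) : Col) = (π⁻¹).1 (n, σ n * i, ξ) := by
      refine Prod.ext (h.inv (n, σ n * i, ξ)).1.symm (Prod.ext ?_ rfl)
      have := (h.inv (n, σ n * i, ξ)).2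
      simp only [Pi.inv_apply, inv_mul_cancel_left] at this
      exact this.symm
    rw [this, app_inv]

lemma mem_sym_aN {π : GG} {n : ℕ} (h : π ∈ HH (n + 1) ∅) (i : Lam) : π ∈ sym GG (aN n i) := by
  obtain ⟨σ, hσ⟩ := π.2
  intro p
  have h1 := smul_aN hσ n i p
  have h2 : σ n * i = i := by
    rw [← (hσ (n, i, ∅)).2]
    exact h.1 (n, i, ∅) (Nat.lt_succ_self n)
  rwa [h2] at h1

def aH (n : ℕ) (i : Lam) : HN :=
  setH (fun ξ : Om => xH (n, i, ξ))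
    (Filter.mem_of_superset (HH_mem_F (n + 1) Set.finite_empty) fun _ hπ => mem_sym_aN hπ i)

lemma aN_inj {n m : ℕ} {i j : Lam} {p : Cond} (h : Feq (aN n i) (aN m j) p) : n = m ∧ i = j := by
  obtain ⟨r, -, ξ, -, h'⟩ := h.1 ∅ p le_rfl trivial
  have := xN_inj h'
  simp only [Prod.mk.injEq] at this
  exact ⟨this.1, this.2.1⟩

lemma mem_sym_AN (π : GG) (n : ℕ) : π ∈ sym GG (setN fun i : Lam => (aH n i).1) := by
  obtain ⟨σ, hσ⟩ := π.2
  refine mem_sym_setN (fun i => ⟨σ n * i, smul_aN hσ n i⟩) (fun j => ⟨(σ n)⁻¹ * j, fun p => ?_⟩)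
  have := smul_aN hσ n ((σ n)⁻¹ * j) p
  rwa [mul_inv_cancel_left] at this

def AH (n : ℕ) : HN := setH (fun i : Lam => aH n i) (Filter.univ_mem' fun π => mem_sym_AN π n)

lemma AH_inj {n m : ℕ} {p : Cond} (h : Feq (AH n).1 (AH m).1 p) : n = m := by
  obtain ⟨r, -, ξ, -, h'⟩ := h.1 1 p le_rfl trivial
  exact (aN_inj h').1

def AA : HN := setH AH (Filter.univ_mem' fun π => mem_sym_setN' fun n => mem_sym_AN π n)

lemma mem_sym_UU (π : GG) : π ∈ sym GG (setN fun t : ℕ × Lam => (aH t.1 t.2).1) := by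
  obtain ⟨σ, hσ⟩ := π.2
  refine mem_sym_setN (fun t => ⟨(t.1, σ t.1 * t.2), smul_aN hσ t.1 t.2⟩)
    (fun t => ⟨(t.1, (σ t.1)⁻¹ * t.2), fun p => ?_⟩)
  have := smul_aN hσ t.1 ((σ t.1)⁻¹ * t.2) p
  rwa [mul_inv_cancel_left] at this

def UU : HN := setH (fun t : ℕ × Lam => aH t.1 t.2) (Filter.univ_mem' mem_sym_UU)

lemma blk_shift (j : ℕ) (l : Lam) : Blk (shift j l).1 (fun n => if n = j then l else 1) :=
  fun _ => ⟨rfl, rfl⟩

lemma not_ctbl_UU (g : GM (P := Cond) GG) (hU : UU ∈ g.S) (ha : ∀ n i, aH n i ∈ g.S) :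
    ¬ Ctbl g.E (g.val UU) := by
  obtain ⟨l, hl⟩ : ∃ l : Lam, l ≠ 1 := ⟨uu 1, uu_one_ne⟩
  rintro ⟨ω, f, h1, h2⟩
  rw [g.omega_eq h1] at h2
  obtain ⟨f, hf, rfl⟩ := g.surj f
  obtain ⟨k, e, -, -, a1, a2, a3⟩ := exists_support f.sym_mem 0 Set.finite_empty
  obtain ⟨y, ⟨t, b1, b2⟩, -⟩ := h2.2.1 _ (g.mem_setH hU (i := (k, 1)) (ha k 1))
  obtain ⟨_, y', -, b3, b4⟩ := h2.1 t b1
  obtain ⟨m, rfl⟩ := (g.mem_omega _).1 b3
  have b5 : y = g.nat m := (b2.inj g.isZF.pair b4).2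
  subst b5
  have hd : Def (fun _ E v => Rel E (v 2) (v 0) (v 1) ∧ Inj E (v 2) (v 3) (v 4)) :=
    (Def.rel _ _ _).and (Def.inj _ _ _)
  let w : ℕ → HN := cons (natH GG m) (cons f (cons UU fun _ => omegaH GG))
  obtain ⟨p, -, hp⟩ := g.truthDef hd (w := cons (aH k 1) w)
    (forall_cons (ha k 1) (forall_cons (g.nat_mem m) (forall_cons hf
      (forall_cons hU fun _ => g.omega_mem)))) ⟨⟨t, b1, b2⟩, h2⟩
  obtain ⟨τ, c1, c2, c3⟩ := exists_move a1.countable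
    ((cols_ctbl p).image (shift k l).1) (cols_ctbl p)
  have hsh := shift_mem_HH l a2
  have hπ : τ * shift k l ∈ HH k e := (HH k e).mul_mem (mem_HH_of_blk c1 c2) hsh
  have hw : ∀ i, τ * shift k l ∈ sym GG (w i).1 := by
    intro i
    rcases i with _ | _ | _ | i
    exacts [mem_sym_natN _ _, a3 hπ, mem_sym_UU _, mem_sym_omegaH _]
  have hp' := (Fc.smul_cons hd hw (aH k 1)).1 hp
  have hblk : Blk (τ * shift k l).1 (1 * fun n => if n = k then l else 1) :=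
    c1.mul (blk_shift k l)
  have hp'' := Fc.congr hd (feq_cons1 (y := (τ * shift k l) • aH k 1) (y' := aH k _)
    (smul_aN hblk k 1 _)) hp'
  obtain ⟨r, d1, d2⟩ := exists_lb p ((τ * shift k l) • p) (by
    intro c ξ b k1 k2
    obtain ⟨c, rfl⟩ := (τ * shift k l).1.surjective c
    rw [app_mem_smul] at k2
    by_cases hc : (shift k l).1 c ∈ e
    · have : (shift k l).1 c = c := (shift k l).1.injective (hsh.2 _ hc)
      rw [mul_app, c2 _ hc, this] at k1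
      exact p.func' c ξ b k1 k2
    · exact c3 _ ⟨c, mem_cols k2, rfl⟩ hc (mem_cols k1))
  have := feq_of_gm (a := aH k 1)
    (b := aH k ((1 * fun n => if n = k then l else 1 : ℕ → Lam) k * 1)) (p := r)
    (Set.range w) (Set.countable_range w) (by
      intro g' e1 e2 e3 e4
      have e5 : ∀ i, w i ∈ g'.S := fun i => e4 ⟨i, rfl⟩
      obtain ⟨f1, f2⟩ := hp.mono d1 g' e1 (forall_cons e2 e5)
      obtain ⟨f3, -⟩ := hp''.mono d2 g' e1 (forall_cons e3 e5)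
      have f1' : Rel g'.E (g'.val f) (g'.val (aH k 1)) (g'.nat m) := f1
      have f2' : Inj g'.E (g'.val f) (g'.val UU) g'.omega := f2
      have f3' : Rel g'.E (g'.val f)
        (g'.val (aH k ((1 * fun n => if n = k then l else 1 : ℕ → Lam) k * 1))) (g'.nat m) := f3
      exact f2'.2.2 _ _ _ f1' f3')
  have h3 := (aN_inj this).2
  simp only [one_mul, if_true, mul_one] at h3
  exact hl h3.symm

theorem exists_model : ∃ (M : Type) (E : M → M → Prop), IsZF E ∧ MCS E ∧ ¬ CUC E := by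
  obtain ⟨code, hcode⟩ := Countable.exists_injective_nat Lam
  have hF : sym GG (setN fun n : ℕ => (opH (AH n) (natH GG n)).1) ∈ (SymSys.F : Filter GG) :=
    Filter.univ_mem' fun π => mem_sym_setN' fun n => mem_sym_opH (mem_sym_AN π n) (mem_sym_natN π n)
  have hf : ∀ n, sym GG (setN fun i : Lam => (opH (aH n i) (natH GG (code i))).1) ∈
      (SymSys.F : Filter GG) := fun n =>
    Filter.mem_of_superset (HH_mem_F (n + 1) Set.finite_empty) fun π hπ =>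
      mem_sym_setN' fun i => mem_sym_opH (mem_sym_aN hπ i) (mem_sym_natN π _)
  obtain ⟨g, -, hC⟩ := exists_gm (G := GG) (⟨∅, Set.countable_empty, fun _ _ h _ => h⟩ : Cond)
    ({AA, UU, setH _ hF} ∪ Set.range AH ∪ Set.range (fun n => opH (AH n) (natH GG n)) ∪
      Set.range (fun t : ℕ × Lam => aH t.1 t.2) ∪
      Set.range (fun t : ℕ × Lam => opH (aH t.1 t.2) (natH GG (code t.2))) ∪
      Set.range (fun n => setH _ (hf n)))
    ((((((Set.to_countable _).union (Set.countable_range _)).union (Set.countable_range _)).union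
      (Set.countable_range _)).union (Set.countable_range _)).union (Set.countable_range _))
  have a1 : AA ∈ g.S := hC (by simp)
  have a2 : UU ∈ g.S := hC (by simp)
  have a3 : setH _ hF ∈ g.S := hC (by simp)
  have a4 : ∀ n, AH n ∈ g.S := fun n => hC (Or.inl (Or.inl (Or.inl (Or.inl (Or.inr ⟨n, rfl⟩)))))
  have a5 : ∀ n, opH (AH n) (natH GG n) ∈ g.S :=
    fun n => hC (Or.inl (Or.inl (Or.inl (Or.inr ⟨n, rfl⟩))))
  have a6 : ∀ n i, aH n i ∈ g.S := fun n i => hC (Or.inl (Or.inl (Or.inr ⟨(n, i), rfl⟩)))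
  have a7 : ∀ n i, opH (aH n i) (natH GG (code i)) ∈ g.S :=
    fun n i => hC (Or.inl (Or.inr ⟨(n, i), rfl⟩))
  have a8 : ∀ n, setH _ (hf n) ∈ g.S := fun n => hC (Or.inr ⟨n, rfl⟩)
  have b1 := g.mem_setH_iff a1 a4
  have b2 := fun n => g.mem_setH_iff (a4 n) (a6 n)
  have b3 := g.mem_setH_iff a2 fun t => a6 t.1 t.2
  refine ⟨g.M, g.E, g.isZF, gm_mcs g, fun h => not_ctbl_UU g a2 a6 (h (g.val AA) _ ?_ ?_ ?_)⟩
  · refine g.ctbl_of_enum (a := AH) id a3 a4 a5 Function.injective_id ?_ b1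
    intro i j hij
    obtain ⟨q, -, hq⟩ := (g.eq_iff (a4 i) (a4 j)).1 hij
    exact AH_inj hq
  · intro x hx
    obtain ⟨n, rfl⟩ := (b1 x).1 hx
    refine g.ctbl_of_enum (a := aH n) code (a8 n) (a6 n) (a7 n) hcode ?_ (b2 n)
    intro i j hij
    obtain ⟨q, -, hq⟩ := (g.eq_iff (a6 n i) (a6 n j)).1 hij
    exact (aN_inj hq).2
  · intro z
    refine (b3 z).trans ⟨?_, ?_⟩
    · rintro ⟨t, rfl⟩
      exact ⟨_, (b1 _).2 ⟨t.1, rfl⟩, (b2 t.1 _).2 ⟨t.2, rfl⟩⟩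
    · rintro ⟨x, h1, h2⟩
      obtain ⟨n, rfl⟩ := (b1 x).1 h1
      obtain ⟨i, rfl⟩ := (b2 n z).1 h2
      exact ⟨(n, i), rfl⟩

end Pool.Agent.Lib.MP_b83852_lc
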