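import Mathlib

set_option autoImplicit false

namespace Pool.Agent.Lib.MP_b83852_lc

open Matrix

/-- the block group -/
abbrev Lam : Type := Matrix.SpecialLinearGroup (Fin 2) ℚ

instance : Countable Lam := by
  unfold Lam Matrix.SpecialLinearGroup Matrix
  infer_instance

def uu (b : ℚ) : Lam := ⟨!![1, b; 0, 1], by simp [Matrix.det_fin_two]⟩
def ll (b : ℚ) : Lam := ⟨!![1, 0; b, 1], by simp [Matrix.det_fin_two]⟩
def dd (a : ℚ) (ha : a ≠ 0) : Lam := ⟨!![a, 0; 0, a⁻¹], by simp [Matrix.det_fin_two, ha]⟩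
def ww : Lam := ⟨!![0, 1; -1, 0], by simp [Matrix.det_fin_two]⟩

lemma uu_add (a b : ℚ) : uu a * uu b = uu (a + b) := by
  apply Subtype.ext
  simp [uu, add_comm]

lemma uu_zero : uu 0 = 1 := by
  apply Subtype.ext
  simp [uu, Matrix.one_fin_two]

lemma uu_inv (a : ℚ) : (uu a)⁻¹ = uu (-a) := by
  rw [inv_eq_iff_mul_eq_one, uu_add, add_neg_cancel, uu_zero]

lemma uu_dd (a b : ℚ) (ha : a ≠ 0) : uu b * (dd a ha)⁻¹ = (dd a ha)⁻¹ * uu (a ^ 2 * b) := by
  have : dd a ha * uu b = uu (a ^ 2 * b) * dd a ha := by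
    apply Subtype.ext
    simp only [uu, dd, Matrix.SpecialLinearGroup.coe_mul, Matrix.mul_fin_two]
    congr 1 <;> field_simp <;> ring_nf
  calc uu b * (dd a ha)⁻¹ = (dd a ha)⁻¹ * (dd a ha * uu b) * (dd a ha)⁻¹ := by group
    _ = _ := by rw [this]; group

lemma uu_ww (b : ℚ) : uu (-b) * ww = ww * ll b := by
  apply Subtype.ext
  simp [uu, ll, ww]

lemma decomp (g : Lam) (hc : g.1 1 0 ≠ 0) :
    g = uu ((g.1 0 0 - 1) / g.1 1 0) * ll (g.1 1 0) * uu ((g.1 1 1 - 1) / g.1 1 0) := by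
  have hdet : g.1 0 0 * g.1 1 1 - g.1 0 1 * g.1 1 0 = 1 := by
    have := g.2
    rwa [Matrix.det_fin_two] at this
  apply Subtype.ext
  simp only [uu, ll, Matrix.SpecialLinearGroup.coe_mul, Matrix.mul_fin_two]
  conv_lhs => rw [Matrix.eta_fin_two g.1]
  congr 1
  ext i j
  fin_cases i <;> fin_cases j <;> simp <;> field_simp <;> linarith

lemma ll_mul_entry (g : Lam) : (ll 1 * g).1 1 0 = g.1 0 0 + g.1 1 0 := by
  simp [ll, Matrix.mul_apply, Fin.sum_univ_two]

lemma ll_neg_mul : ll (-1) * ll 1 = 1 := by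
  apply Subtype.ext
  simp [ll, Matrix.one_fin_two]

lemma uu_one_ne : uu 1 ≠ 1 := by
  intro h
  have := congrArg (fun g : Lam => g.1 0 1) h
  simp [uu] at this

/-- SL(2,Q) is minimally almost periodic, in combinatorial form. -/
theorem sl2_map (U : ℕ → Set Lam) (hinv : ∀ n g, g ∈ U n → g⁻¹ ∈ U n)
    (hmul : ∀ n g h, g ∈ U (n + 1) → h ∈ U (n + 1) → g * h ∈ U n)
    (hcol : ∀ n, ∃ (k : ℕ) (c : Lam → ℕ), (∀ g, c g < k) ∧ ∀ g h, c g = c h → g⁻¹ * h ∈ U n) :
    ∀ n g, g ∈ U n := by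
  classical
  have hone : ∀ n, (1 : Lam) ∈ U n := by
    intro n
    obtain ⟨k, c, -, hc⟩ := hcol n
    simpa using hc 1 1 rfl
  have hconj : ∀ (g : ℕ → Lam) (n : ℕ), ∃ i j, i < j ∧ ∀ x, x⁻¹ * ((g i)⁻¹ * g j) * x ∈ U n := by
    intro g n
    obtain ⟨k, c, hk, hc⟩ := hcol (n + 2)
    let rep : ℕ → Lam := fun t => if h : ∃ x, c x = t then h.choose else 1
    have hrep : ∀ x, c (rep (c x)) = c x := by
      intro x
      have h : ∃ y, c y = c x := ⟨x, rfl⟩
      simp only [rep, dif_pos h]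
      exact h.choose_spec
    let f : ℕ → (Fin k → Fin k) := fun i t => ⟨c (g i * rep t), hk _⟩
    obtain ⟨i, j, hij, hf⟩ : ∃ i j, i < j ∧ f i = f j := by
      obtain ⟨i, j, hne, h⟩ := Finite.exists_ne_map_eq_of_infinite f
      rcases lt_or_gt_of_ne hne with h' | h'
      · exact ⟨i, j, h', h⟩
      · exact ⟨j, i, h', h.symm⟩
    refine ⟨i, j, hij, fun x => ?_⟩
    have h1 : c (g i * rep (c x)) = c (g j * rep (c x)) :=
      congrArg Fin.val (congrFun hf ⟨c x, hk x⟩)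
    have a1 := hc _ _ (hrep x).symm
    have a2 := hc _ _ h1
    have a3 := hc _ _ (hrep x)
    have a4 := hmul _ _ _ a1 a2
    have a5 := hmul _ _ _ a3 (hone _)
    have a6 := hmul _ _ _ a4 a5
    have e : x⁻¹ * rep (c x) * ((g i * rep (c x))⁻¹ * (g j * rep (c x))) *
        ((rep (c x))⁻¹ * x * 1) = x⁻¹ * ((g i)⁻¹ * g j) * x := by group
    rwa [e] at a6
  let V : Subgroup Lam :=
    { carrier := {g | ∀ n x, x⁻¹ * g * x ∈ U n}
      one_mem' := fun n x => by simpa using hone n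
      mul_mem' := fun {a b} ha hb n x => by
        have := hmul n _ _ (ha (n + 1) x) (hb (n + 1) x)
        have e : x⁻¹ * a * x * (x⁻¹ * b * x) = x⁻¹ * (a * b) * x := by group
        rwa [e] at this
      inv_mem' := fun {a} ha n x => by
        have := hinv n _ (ha n x)
        have e : (x⁻¹ * a * x)⁻¹ = x⁻¹ * a⁻¹ * x := by group
        rwa [e] at this }
  have hu : ∀ b, uu b ∈ V := by
    intro b n x
    obtain ⟨i, j, hij, h⟩ := hconj (fun i => uu (2 * i * b)) (n + 1)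
    simp only [uu_inv, uu_add] at h
    set m : ℚ := 2 * ((j : ℚ) - i) with hm
    have hm2 : 2 ≤ m := by
      have : (i : ℚ) + 1 ≤ j := by exact_mod_cast hij
      linarith
    have e0 : -(2 * (i : ℚ) * b) + 2 * j * b = m * b := by rw [hm]; ring
    rw [e0] at h
    have hm0 : m ≠ 0 := by linarith
    have hmi : 0 < m⁻¹ ∧ m⁻¹ < 1 := ⟨by positivity, inv_lt_one_of_one_lt₀ (by linarith)⟩
    have ha : (m⁻¹ + 1) / 2 ≠ 0 := by linarith [hmi.1]
    have ha' : (m⁻¹ - 1) / 2 ≠ 0 := by linarith [hmi.2]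
    have k : ∀ (a : ℚ) (ha : a ≠ 0), x⁻¹ * uu (a ^ 2 * (m * b)) * x ∈ U (n + 1) := by
      intro a ha
      have := h ((dd a ha)⁻¹ * x)
      have e : ((dd a ha)⁻¹ * x)⁻¹ * uu (m * b) * ((dd a ha)⁻¹ * x) =
          x⁻¹ * uu (a ^ 2 * (m * b)) * x := by
        calc _ = x⁻¹ * dd a ha * (uu (m * b) * (dd a ha)⁻¹) * x := by group
          _ = _ := by rw [uu_dd]; group
      rwa [e] at this
    have := hmul n _ _ (k _ ha) (hinv _ _ (k _ ha'))
    have e : x⁻¹ * uu (((m⁻¹ + 1) / 2) ^ 2 * (m * b)) * x *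
        (x⁻¹ * uu (((m⁻¹ - 1) / 2) ^ 2 * (m * b)) * x)⁻¹ = x⁻¹ * uu b * x := by
      calc _ = x⁻¹ * (uu (((m⁻¹ + 1) / 2) ^ 2 * (m * b)) *
          (uu (((m⁻¹ - 1) / 2) ^ 2 * (m * b)))⁻¹) * x := by group
        _ = _ := by
          rw [uu_inv, uu_add]
          congr 3
          field_simp
          ring
    rwa [e] at this
  have hl : ∀ b, ll b ∈ V := by
    intro b n x
    have := hu (-b) n (ww * x)
    have e : (ww * x)⁻¹ * uu (-b) * (ww * x) = x⁻¹ * ll b * x := by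
      calc _ = x⁻¹ * ww⁻¹ * (uu (-b) * ww) * x := by group
        _ = _ := by rw [uu_ww]; group
    rwa [e] at this
  have h1 : ∀ g : Lam, g.1 1 0 ≠ 0 → g ∈ V := by
    intro g hg
    rw [decomp g hg]
    exact V.mul_mem (V.mul_mem (hu _) (hl _)) (hu _)
  have hall : ∀ g : Lam, g ∈ V := by
    intro g
    by_cases hg : g.1 1 0 = 0
    · have hdet : g.1 0 0 * g.1 1 1 - g.1 0 1 * g.1 1 0 = 1 := by
        have := g.2
        rwa [Matrix.det_fin_two] at this
      have h2 : (ll 1 * g).1 1 0 ≠ 0 := by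
        rw [ll_mul_entry, hg, add_zero]
        intro h0
        rw [h0, hg] at hdet
        simp at hdet
      have : g = ll (-1) * (ll 1 * g) := by rw [← mul_assoc, ll_neg_mul, one_mul]
      rw [this]
      exact V.mul_mem (hl _) (h1 _ h2)
    · exact h1 g hg
  intro n g
  simpa using hall g n 1

end Pool.Agent.Lib.MP_b83852_lc
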