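import Pool.Agent.Lib.helper81.Pairs
import Pool.Agent.Lib.MP_b83852_lc.SL2

set_option autoImplicit false

namespace Pool.Agent.Lib.MP_b83852_lc

open Pool.Agent.Lib.helper81

abbrev Om : Type := Set ℕ

/-- columns: level, block, position -/
abbrev Col : Type := ℕ × Lam × Om

/-- countable consistent sets of bits -/
@[ext] structure Cond where
  s : Set (Col × Om × Bool)
  ctbl : s.Countable
  func : ∀ c ξ, (c, ξ, true) ∈ s → (c, ξ, false) ∈ s → False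

instance : Preorder Cond where
  le p q := q.s ⊆ p.s
  le_refl _ := subset_rfl
  le_trans _ _ _ h1 h2 := Set.Subset.trans h2 h1

lemma le_def {p q : Cond} : p ≤ q ↔ q.s ⊆ p.s := Iff.rfl

lemma exists_lb_seq (f : ℕ → Cond)
    (h : ∀ i j c ξ, (c, ξ, true) ∈ (f i).s → (c, ξ, false) ∈ (f j).s → False) :
    ∃ r : Cond, ∀ i, r ≤ f i := by
  refine ⟨⟨⋃ i, (f i).s, Set.countable_iUnion fun i => (f i).ctbl, ?_⟩,
    fun i => Set.subset_iUnion (fun i => (f i).s) i⟩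
  intro c ξ h1 h2
  obtain ⟨i, hi⟩ := Set.mem_iUnion.1 h1
  obtain ⟨j, hj⟩ := Set.mem_iUnion.1 h2
  exact h i j c ξ hi hj

lemma exists_lb (p q : Cond) (h : ∀ c ξ b, (c, ξ, b) ∈ p.s → (c, ξ, !b) ∈ q.s → False) :
    ∃ r : Cond, r ≤ p ∧ r ≤ q := by
  refine ⟨⟨p.s ∪ q.s, p.ctbl.union q.ctbl, ?_⟩, Set.subset_union_left, Set.subset_union_right⟩
  rintro c ξ (h1 | h1) (h2 | h2)
  · exact p.func c ξ h1 h2
  · exact h c ξ true h1 h2
  · exact h c ξ false h2 h1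
  · exact q.func c ξ h1 h2

lemma Cond.func' (p : Cond) (c : Col) (ξ : Om) (b : Bool) (h1 : (c, ξ, b) ∈ p.s)
    (h2 : (c, ξ, !b) ∈ p.s) : False := by
  cases b
  · exact p.func c ξ h2 h1
  · exact p.func c ξ h1 h2

lemma sigma_closed (c : ℕ → Cond) (hc : Antitone c) : ∃ q, ∀ n, q ≤ c n :=
  exists_lb_seq c fun i j x ξ h1 h2 =>
    (c (max i j)).func x ξ (hc (le_max_left i j) h1) (hc (le_max_right i j) h2)

def cols (p : Cond) : Set Col := Prod.fst '' p.s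

lemma cols_ctbl (p : Cond) : (cols p).Countable := p.ctbl.image _

lemma mem_cols {p : Cond} {t : Col × Om × Bool} (h : t ∈ p.s) : t.1 ∈ cols p := ⟨t, h, rfl⟩

def restrict (p : Cond) (e : Set Col) : Cond :=
  ⟨{t ∈ p.s | t.1 ∈ e}, p.ctbl.mono fun _ h => h.1, fun c ξ h1 h2 => p.func c ξ h1.1 h2.1⟩

lemma le_restrict (p : Cond) (e : Set Col) : p ≤ restrict p e := fun _ h => h.1

def Blk (π : Equiv.Perm Col) (σ : ℕ → Lam) : Prop :=
  ∀ c, (π c).1 = c.1 ∧ (π c).2.1 = σ c.1 * c.2.1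

lemma Blk.mul {π ρ : Equiv.Perm Col} {σ τ : ℕ → Lam} (h1 : Blk π σ) (h2 : Blk ρ τ) :
    Blk (π * ρ) (σ * τ) := by
  intro c
  rw [Equiv.Perm.mul_apply, (h1 _).1, (h1 _).2, (h2 c).1, (h2 c).2]
  exact ⟨rfl, by simp [mul_assoc]⟩

lemma Blk.inv {π : Equiv.Perm Col} {σ : ℕ → Lam} (h : Blk π σ) : Blk π⁻¹ σ⁻¹ := by
  intro c
  have h1 := h (π⁻¹ c)
  simp only [Equiv.Perm.coe_inv, Equiv.apply_symm_apply] at h1 ⊢
  refine ⟨h1.1.symm, ?_⟩
  rw [h1.2, ← h1.1]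
  simp

def Grp : Subgroup (Equiv.Perm Col) where
  carrier := {π | ∃ σ, Blk π σ}
  one_mem' := ⟨1, fun c => by simp⟩
  mul_mem' := fun ⟨_, h1⟩ ⟨_, h2⟩ => ⟨_, h1.mul h2⟩
  inv_mem' := fun ⟨_, h⟩ => ⟨_, h.inv⟩

/-- the automorphism group -/
abbrev GG : Type := Grp

lemma GG.level (π : GG) (c : Col) : (π.1 c).1 = c.1 := by
  obtain ⟨σ, h⟩ := π.2
  exact (h c).1

instance : MulAction GG Cond where
  smul π p := ⟨{t | ((π⁻¹).1 t.1, t.2) ∈ p.s}, by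
    apply p.ctbl.preimage (f := fun t : Col × Om × Bool => ((π⁻¹).1 t.1, t.2))
    intro t t' h
    simp only [Prod.mk.injEq, EmbeddingLike.apply_eq_iff_eq] at h
    exact Prod.ext h.1 h.2, fun c ξ h1 h2 => p.func _ ξ h1 h2⟩
  one_smul p := Cond.ext rfl
  mul_smul π ρ p := by
    apply Cond.ext
    ext t
    show (((π * ρ)⁻¹).1 t.1, t.2) ∈ p.s ↔ ((ρ⁻¹).1 ((π⁻¹).1 t.1), t.2) ∈ p.s
    rw [mul_inv_rev]
    rfl

lemma mem_smul {π : GG} {p : Cond} {t : Col × Om × Bool} :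
    t ∈ (π • p).s ↔ ((π⁻¹).1 t.1, t.2) ∈ p.s := Iff.rfl

@[simp] lemma inv_app (π : GG) (c : Col) : (π⁻¹).1 (π.1 c) = c := by simp

@[simp] lemma app_inv (π : GG) (c : Col) : π.1 ((π⁻¹).1 c) = c := by simp

lemma mul_app (π ρ : GG) (c : Col) : (π * ρ).1 c = π.1 (ρ.1 c) := rfl

lemma app_mem_smul {π : GG} {p : Cond} {c : Col} {u : Om × Bool} :
    (π.1 c, u) ∈ (π • p).s ↔ (c, u) ∈ p.s := by
  rw [mem_smul, inv_app]

/-- the subgroup fixing all blocks of level below `k` and all columns in `e` -/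
def HH (k : ℕ) (e : Set Col) : Subgroup GG where
  carrier := {π | (∀ c : Col, c.1 < k → (π.1 c).2.1 = c.2.1) ∧ ∀ c ∈ e, π.1 c = c}
  one_mem' := ⟨fun _ _ => rfl, fun _ _ => rfl⟩
  mul_mem' := by
    rintro π ρ ⟨h1, h2⟩ ⟨h3, h4⟩
    refine ⟨fun c hc => ?_, fun c hc => ?_⟩
    · rw [mul_app, h1 _ (by rw [ρ.level]; exact hc), h3 c hc]
    · rw [mul_app, h4 c hc, h2 c hc]
  inv_mem' := by
    rintro π ⟨h1, h2⟩
    refine ⟨fun c hc => ?_, fun c hc => ?_⟩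
    · have := h1 ((π⁻¹).1 c) (by rw [GG.level]; exact hc)
      rw [app_inv] at this
      exact this.symm
    · conv_lhs => rw [← h2 c hc]
      exact inv_app π c

lemma mem_HH {k : ℕ} {e : Set Col} {π : GG} :
    π ∈ HH k e ↔ (∀ c : Col, c.1 < k → (π.1 c).2.1 = c.2.1) ∧ ∀ c ∈ e, π.1 c = c := Iff.rfl

lemma HH_anti {k k' : ℕ} {e e' : Set Col} (hk : k ≤ k') (he : e ⊆ e') : HH k' e' ≤ HH k e :=
  fun _ h => ⟨fun c hc => h.1 c (lt_of_lt_of_le hc hk), fun c hc => h.2 c (he hc)⟩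

lemma conj_mem_HH {k : ℕ} {e : Set Col} {π ρ : GG} (h : ρ ∈ HH k (π.1 '' e)) :
    π⁻¹ * ρ * π ∈ HH k e := by
  obtain ⟨σ, hσ⟩ := π.2
  refine ⟨fun c hc => ?_, fun c hc => ?_⟩
  · rw [mul_app, mul_app]
    have a1 := (hσ.inv (ρ.1 (π.1 c))).2
    have a2 := h.1 (π.1 c) (by rw [π.level]; exact hc)
    have a3 := (hσ c).2
    have a4 : (ρ.1 (π.1 c)).1 = c.1 := by rw [ρ.level, π.level]
    show ((π.1)⁻¹ (ρ.1 (π.1 c))).2.1 = c.2.1
    rw [a1, a2, a3, a4]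
    simp
  · rw [mul_app, mul_app, h.2 _ ⟨c, hc, rfl⟩, inv_app]

instance : SymSys Cond GG where
  F := { sets := {S | ∃ k e, Set.Finite e ∧ (HH k e : Set GG) ⊆ S}
         univ_sets := ⟨0, ∅, Set.finite_empty, Set.subset_univ _⟩
         sets_of_superset := fun ⟨k, e, h1, h2⟩ h => ⟨k, e, h1, h2.trans h⟩
         inter_sets := fun ⟨k, e, h1, h2⟩ ⟨k', e', h1', h2'⟩ =>
          ⟨max k k', e ∪ e', h1.union h1', fun _ h =>
            ⟨h2 (HH_anti (le_max_left _ _) Set.subset_union_left h),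
              h2' (HH_anti (le_max_right _ _) Set.subset_union_right h)⟩⟩ }
  mono π _ _ h := fun _ ht => h ht
  conj := fun _ ⟨k, e, h1, h2⟩ π => ⟨k, π.1 '' e, h1.image _, fun _ h => h2 (conj_mem_HH h)⟩

lemma HH_mem_F (k : ℕ) {e : Set Col} (he : e.Finite) :
    (HH k e : Set GG) ∈ (SymSys.F : Filter GG) := ⟨k, e, he, subset_rfl⟩

lemma exists_support {S : Set GG} (hS : S ∈ (SymSys.F : Filter GG)) (k0 : ℕ) {e0 : Set Col}
    (he0 : e0.Finite) :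
    ∃ k e, k0 ≤ k ∧ e0 ⊆ e ∧ Set.Finite e ∧ (∀ c ∈ e, c.1 < k) ∧ (HH k e : Set GG) ⊆ S := by
  obtain ⟨k, e, h1, h2⟩ := hS
  obtain ⟨b, hb⟩ := ((he0.union h1).image Prod.fst).bddAbove
  refine ⟨max (max k0 k) (b + 1), e0 ∪ e, by omega, Set.subset_union_left, he0.union h1,
    fun c hc => ?_, fun π hπ => h2 (HH_anti (by omega) Set.subset_union_right hπ)⟩
  have := hb ⟨c, hc, rfl⟩
  omega

lemma mem_HH_of_blk {τ : GG} (h : Blk τ.1 1) {k : ℕ} {e : Set Col} (he : ∀ c ∈ e, τ.1 c = c) :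
    τ ∈ HH k e := ⟨fun c _ => by simpa using (h c).2, he⟩

lemma exists_swap (g : Equiv.Perm Col) (Y : Set Col)
    (hblk : ∀ c ∈ Y, (g c).1 = c.1 ∧ (g c).2.1 = c.2.1) (hdisj : ∀ c ∈ Y, g c ∉ Y) :
    ∃ τ : GG, Blk τ.1 1 ∧ (∀ c ∈ Y, τ.1 c = g c) ∧ ∀ c, c ∉ Y → g⁻¹ c ∉ Y → τ.1 c = c := by
  classical
  let f : Col → Col := fun c => if c ∈ Y then g c else if g⁻¹ c ∈ Y then g⁻¹ c else c
  have hf : Function.Involutive f := by
    intro c
    by_cases h1 : c ∈ Y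
    · simp [f, h1, hdisj c h1]
    · by_cases h2 : g⁻¹ c ∈ Y
      · have h2' : g.symm c ∈ Y := h2
        simp [f, h1, h2']
      · have h2' : g.symm c ∉ Y := h2
        simp [f, h1, h2']
  have hb : Blk hf.toPerm 1 := by
    intro c
    show (f c).1 = c.1 ∧ (f c).2.1 = 1 * c.2.1
    rw [one_mul]
    by_cases h1 : c ∈ Y
    · simp only [f, if_pos h1]; exact hblk c h1
    · by_cases h2 : g⁻¹ c ∈ Y
      · simp only [f, if_neg h1, if_pos h2]
        have := hblk _ h2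
        simp only [Equiv.Perm.coe_inv, Equiv.apply_symm_apply] at this ⊢
        exact ⟨this.1.symm, this.2.symm⟩
      · simp only [f, if_neg h1, if_neg h2, and_self]
  refine ⟨⟨hf.toPerm, 1, hb⟩, hb, fun c hc => ?_, fun c h1 h2 => ?_⟩
  · show f c = g c
    simp only [f, if_pos hc]
  · show f c = c
    simp only [f, if_neg h1, if_neg h2]

lemma exists_notMem {W : Set Om} (hW : W.Countable) : ∃ t : Om, t ∉ W := by
  by_contra h
  push Not at h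
  obtain ⟨f, hf⟩ := hW.exists_eq_range ⟨∅, h ∅⟩
  exact Function.cantor_surjective f fun t => by rw [← Set.mem_range, ← hf]; exact h t

lemma exists_move {e Z1 Z2 : Set Col} (he : e.Countable) (h1 : Z1.Countable) (h2 : Z2.Countable) :
    ∃ τ : GG, Blk τ.1 1 ∧ (∀ c ∈ e, τ.1 c = c) ∧ ∀ c ∈ Z1, c ∉ e → τ.1 c ∉ Z2 := by
  set W : Set Om := (fun c : Col => c.2.2) '' (e ∪ Z1 ∪ Z2) with hWdef
  have hW : W.Countable := ((he.union h1).union h2).image _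
  obtain ⟨t, ht⟩ := exists_notMem (W := Set.image2 symmDiff W W) (hW.image2 hW _)
  have key : ∀ ξ ∈ W, symmDiff ξ t ∉ W := by
    intro ξ hξ h
    exact ht ⟨ξ, hξ, _, h, by simp⟩
  have hinv : Function.Involutive (fun c : Col => ((c.1, c.2.1, symmDiff c.2.2 t) : Col)) := by
    intro c
    simp
  obtain ⟨τ, a1, a2, a3⟩ := exists_swap hinv.toPerm (Z1 \ e) (fun c _ => ⟨rfl, rfl⟩) (by
    intro c hc h
    exact key c.2.2 ⟨c, Or.inl (Or.inr hc.1), rfl⟩ ⟨_, Or.inl (Or.inr h.1), rfl⟩)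
  refine ⟨τ, a1, fun c hc => a3 c (fun h => h.2 hc) ?_, fun c hc hce h => ?_⟩
  · intro h
    exact key c.2.2 ⟨c, Or.inl (Or.inl hc), rfl⟩ ⟨_, Or.inl (Or.inr h.1), rfl⟩
  · rw [a2 c ⟨hc, hce⟩] at h
    exact key c.2.2 ⟨c, Or.inl (Or.inr hc), rfl⟩ ⟨_, Or.inr h, rfl⟩

lemma smul_restrict {k : ℕ} {e : Set Col} {π : GG} (h : π ∈ HH k e) (p : Cond) :
    π • restrict p e = restrict p e := by
  apply Cond.ext
  ext t
  rw [mem_smul]
  constructor
  · rintro ⟨h1, h2⟩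
    have : (π⁻¹).1 t.1 = t.1 := by
      have := h.2 _ h2
      rw [app_inv] at this
      exact this.symm
    rw [this] at h1 h2
    exact ⟨h1, h2⟩
  · rintro ⟨h1, h2⟩
    rw [((HH k e).inv_mem h).2 _ h2]
    exact ⟨h1, h2⟩

/-- homogeneity -/
lemma homog {m : Cond → Prop} (hmono : ∀ p q, m p → q ≤ p → m q)
    (hreg : ∀ p, (∀ q ≤ p, ∃ r ≤ q, m r) → m p) (k : ℕ) {e : Set Col} (he : e.Countable)
    (hinv : ∀ π ∈ HH k e, ∀ p, m p → m (π • p)) {p : Cond} (h : m p) : m (restrict p e) := by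
  apply hreg
  intro q hq
  obtain ⟨τ, a1, a2, a3⟩ := exists_move he (cols_ctbl p) (cols_ctbl q)
  obtain ⟨r, h1, h2⟩ := exists_lb q (τ • p) (by
    intro c ξ b k1 k2
    obtain ⟨c, rfl⟩ := τ.1.surjective c
    rw [app_mem_smul] at k2
    by_cases hc : c ∈ e
    · rw [a2 c hc] at k1
      exact q.func' c ξ b k1 (hq ⟨k2, hc⟩)
    · exact a3 c (mem_cols k2) hc (mem_cols k1))
  exact ⟨r, h1, hmono _ _ (hinv τ (mem_HH_of_blk a1 a2) p h) h2⟩

/-- the shift of the blocks at level `j` -/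
def shiftP (j : ℕ) (l : Lam) : Equiv.Perm Col where
  toFun c := (c.1, (if c.1 = j then l else 1) * c.2.1, c.2.2)
  invFun c := (c.1, (if c.1 = j then l⁻¹ else 1) * c.2.1, c.2.2)
  left_inv c := by by_cases h : c.1 = j <;> simp [h] <;> rw [← h]
  right_inv c := by by_cases h : c.1 = j <;> simp [h] <;> rw [← h]

def shift (j : ℕ) : Lam →* GG where
  toFun l := ⟨shiftP j l, fun n => if n = j then l else 1, fun _ => ⟨rfl, rfl⟩⟩
  map_one' := by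
    apply Subtype.ext
    ext c <;> simp [shiftP]
  map_mul' l l' := by
    apply Subtype.ext
    apply Equiv.ext
    intro c
    show shiftP j (l * l') c = shiftP j l (shiftP j l' c)
    by_cases h : c.1 = j <;> simp [shiftP, h, mul_assoc]

lemma shift_app (j : ℕ) (l : Lam) (c : Col) :
    (shift j l).1 c = (c.1, (if c.1 = j then l else 1) * c.2.1, c.2.2) := rfl

lemma shift_mem_HH {j : ℕ} (l : Lam) {e : Set Col} (he : ∀ c ∈ e, c.1 < j) :
    shift j l ∈ HH j e := by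
  refine ⟨fun c hc => ?_, fun c hc => ?_⟩
  · rw [shift_app, if_neg hc.ne, one_mul]
  · rw [shift_app, if_neg (he c hc).ne, one_mul]

lemma exists_shift {j : ℕ} {e : Set Col} (he : ∀ c ∈ e, c.1 < j) {π : GG} (h : π ∈ HH j e) :
    ∃ l, (shift j l)⁻¹ * π ∈ HH (j + 1) e := by
  obtain ⟨σ, hσ⟩ := π.2
  refine ⟨σ j, fun c hc => ?_, ((HH j e).mul_mem ((HH j e).inv_mem (shift_mem_HH _ he)) h).2⟩
  rw [← map_inv, mul_app, shift_app, π.level]
  rcases Nat.lt_succ_iff_lt_or_eq.1 hc with h1 | h1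
  · rw [if_neg h1.ne, one_mul, h.1 c h1]
  · rw [if_pos h1, (hσ c).2, h1]
    simp

lemma conj_shift_mem {j : ℕ} (l : Lam) {e : Set Col} (he : ∀ c ∈ e, c.1 < j) {θ : GG}
    (h : θ ∈ HH (j + 1) e) : (shift j l)⁻¹ * θ * shift j l ∈ HH (j + 1) e := by
  apply conj_mem_HH
  refine ⟨h.1, ?_⟩
  rintro _ ⟨c, hc, rfl⟩
  rw [(shift_mem_HH l he).2 c hc, h.2 c hc]

end Pool.Agent.Lib.MP_b83852_lc
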